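import Pool.Agent.J4.H5.VJ.Defs

/-!
# Vojta's conjecture for projective space with truncated counting functions: definitions
-/

set_option autoImplicit false

open MvPolynomial NumberField IsDedekindDomain Module

namespace Pool.Agent.J4.H2.VT

open Pool.Agent.J4.H5.VJ

/-- The primes `w` of `L`, not above the primes in `S`, at which the point `x` meets the divisor
`F = 0`, where `F` is a form of degree `e`: `|F(x)|_w < max_j |x_j|_w ^ e`. -/
def meets {k L : Type} [Field k] [NumberField k] [Field L] [NumberField L] [Algebra k L] {M : ℕ}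
    (S : Finset (HeightOneSpectrum (𝓞 k))) (e : ℕ) (F : MvPolynomial (Fin M) k) (x : Fin M → L) :
    Set (HeightOneSpectrum (𝓞 L)) :=
  {w | w ∉ primesAbove S L ∧ ∃ j, w.valuation L (aeval x F) < (w.valuation L (x j)) ^ e}

/-- The truncated counting function `N_S^(1)(D, x)` of the divisor `D : F = 0` relative to `k`. -/
noncomputable def truncated {k L : Type} [Field k] [NumberField k] [Field L] [NumberField L]
    [Algebra k L] {M : ℕ} (S : Finset (HeightOneSpectrum (𝓞 k))) (e : ℕ)
    (F : MvPolynomial (Fin M) k) (x : Fin M → L) : ℝ :=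
  (∑ᶠ w ∈ meets S e F x, Real.log (Ideal.absNorm w.asIdeal : ℝ)) / finrank k L

/-- Vojta's truncated inequality with the constant `A` for the divisor `F = 0` on `ℙⁿ` (`F` a form of
degree `e`) and the points of degree at most `r` over `k`. -/
def HoldsT (k : Type) [Field k] [NumberField k] {n : ℕ} (F : MvPolynomial (Fin (n + 1)) k) (e : ℕ)
    (A : ℝ) (r : ℕ) : Prop :=
  ∃ G : MvPolynomial (Fin n) k, G ≠ 0 ∧ ∀ S : Finset (HeightOneSpectrum (𝓞 k)), ∃ c : ℝ,
    ∀ (L : Type) [Field L] [NumberField L] [Algebra k L] (x : Fin n → L), finrank k L ≤ r →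
      aeval x G ≠ 0 → aeval (pt x) F ≠ 0 →
      (e - A) * height k (pt x) ≤ truncated S e F (pt x) + logDisc k L + c

/-! ## The pieces -/

/-- SER2: the discriminant of a Galois extension, with the primes in `W` counted once more. -/
def S_SER2 : Prop := ∀ (L L' : Type) [Field L] [NumberField L] [Field L'] [NumberField L']
  [Algebra L L'] [IsGalois L L'] (T : Finset (HeightOneSpectrum (𝓞 L)))
  (W : Finset (HeightOneSpectrum (𝓞 L'))),
  (∀ P ∈ W, ∃ v ∈ T, P.asIdeal.LiesOver v.asIdeal) →
  (∀ (P : HeightOneSpectrum (𝓞 L')), P.asIdeal ∣ differentIdeal (𝓞 L) (𝓞 L') →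
    ∃ v ∈ T, P.asIdeal.LiesOver v.asIdeal) →
  ∑ P ∈ W, Real.log (Ideal.absNorm P.asIdeal : ℝ) +
    Real.log (Ideal.absNorm (differentIdeal (𝓞 L) (𝓞 L')) : ℝ) ≤
    finrank L L' * (∑ v ∈ T, Real.log (Ideal.absNorm v.asIdeal : ℝ) +
      finrank ℚ L * Real.log (finrank L L'))

/-- TRU: the primes at which a point meets a divisor, in a tower. -/
def S_TRU : Prop := ∀ (k L L' : Type) [Field k] [NumberField k] [Field L] [NumberField L]
  [Field L'] [NumberField L'] [Algebra k L] [Algebra L L'] [Algebra k L'] [IsScalarTower k L L']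
  (M : ℕ) (S : Finset (HeightOneSpectrum (𝓞 k))) (e m : ℕ) (F : MvPolynomial (Fin M) k)
  (x : Fin M → L) (y : Fin M → L'), (∀ i, y i ^ m = algebraMap L L' (x i)) →
  ∀ w ∈ meets S (m * e) (expand m F) y, ∃ v ∈ meets S e F x, w.asIdeal.LiesOver v.asIdeal

/-- FIN: the set of the primes is finite. -/
def S_FIN : Prop := ∀ (k L : Type) [Field k] [NumberField k] [Field L] [NumberField L]
  [Algebra k L] (M : ℕ) (S : Finset (HeightOneSpectrum (𝓞 k))) (e : ℕ)
  (F : MvPolynomial (Fin M) k) (x : Fin M → L), aeval x F ≠ 0 → (meets S e F x).Finite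

/-- HYP: the counting function of the coordinate hyperplanes. -/
def S_HYP : Prop := ∀ (k L : Type) [Field k] [NumberField k] [Field L] [NumberField L]
  [Algebra k L] (n : ℕ) (S : Finset (HeightOneSpectrum (𝓞 k))) (x : Fin n → L), (∀ i, x i ≠ 0) →
  truncated S (n + 1) (∏ i, (X i : MvPolynomial (Fin (n + 1)) k)) (pt x) ≤
    (n + 1) * height k (pt x)

/-- ABV: the primes of `L` above a finite set of primes of `k`. -/
def S_ABV : Prop := ∀ (k L : Type) [Field k] [NumberField k] [Field L] [NumberField L]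
  [Algebra k L] (S : Finset (HeightOneSpectrum (𝓞 k))), (primesAbove S L).Finite ∧
  ∑ᶠ v ∈ primesAbove S L, Real.log (Ideal.absNorm v.asIdeal : ℝ) ≤
    finrank k L * ∑ v ∈ S, Real.log (Ideal.absNorm v.asIdeal : ℝ)

/-- TST: the primes at which the coordinates are not units or the point meets `F = 0`; `S'` contains
the primes at which `F` is not integral. -/
def S_TST : Prop := ∀ (k : Type) [Field k] [NumberField k] (n e : ℕ)
  (F : MvPolynomial (Fin (n + 1)) k), F.IsHomogeneous e → ∃ S' : Finset (HeightOneSpectrum (𝓞 k)),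
  ∀ (L : Type) [Field L] [NumberField L] [Algebra k L] (S : Finset (HeightOneSpectrum (𝓞 k)))
    (x : Fin n → L), (∀ i, x i ≠ 0) → ∀ w : HeightOneSpectrum (𝓞 L), w ∉ primesAbove S L →
    w ∉ primesAbove S' L → w ∉ meets S (e + (n + 1)) (F * ∏ i, X i) (pt x) →
    w ∉ meets S e F (pt x) ∧ ∀ i, w.valuation L (x i) = 1

end Pool.Agent.J4.H2.VT
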