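import Pool.Agent.J4.H2.VT.Defs
import Pool.Agent.J4.H5.VJ.Defs2

/-!
# Vojta's truncated inequality for all divisors with strict normal crossings: definitions
-/

set_option autoImplicit false

open MvPolynomial NumberField IsDedekindDomain Module

namespace Pool.Agent.J4.H2.VT

open Pool.Agent.J4.H5.VJ

/-- Vojta's truncated inequality with homogeneous coordinates. -/
def HoldsTH (k : Type) [Field k] [NumberField k] {n : ℕ} (F : MvPolynomial (Fin (n + 1)) k) (e : ℕ)
    (A : ℝ) (r : ℕ) : Prop :=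
  ∃ (G : MvPolynomial (Fin (n + 1)) k) (N : ℕ), G ≠ 0 ∧ G.IsHomogeneous N ∧
    ∀ S : Finset (HeightOneSpectrum (𝓞 k)), ∃ c : ℝ,
    ∀ (L : Type) [Field L] [NumberField L] [Algebra k L] (x : Fin (n + 1) → L), x ≠ 0 →
      finrank k L ≤ r → aeval x G ≠ 0 → aeval x F ≠ 0 →
      (e - A) * height k x ≤ truncated S e F x + logDisc k L + c

/-- HOMT: both forms of the truncated inequality are the same. -/
def S_HOMT : Prop := ∀ (k : Type) [Field k] [NumberField k] (n : ℕ)
  (F : MvPolynomial (Fin (n + 1)) k) (e : ℕ) (A : ℝ) (r : ℕ), F.IsHomogeneous e →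
  (HoldsT k F e A r ↔ HoldsTH k F e A r)

/-- LHT: heights and linear changes of the coordinates. -/
def S_LHT : Prop := ∀ (k : Type) [Field k] [NumberField k] (n : ℕ)
  (g : Matrix (Fin (n + 1)) (Fin (n + 1)) k), IsUnit g.det → ∃ c : ℝ,
  ∀ (L : Type) [Field L] [NumberField L] [Algebra k L] (x : Fin (n + 1) → L), x ≠ 0 →
    |height k (fun i => ∑ j, algebraMap k L (g i j) * x j) - height k x| ≤ c

/-- LTR: truncated counting functions and linear changes of the coordinates. -/
def S_LTR : Prop := ∀ (k : Type) [Field k] [NumberField k] (n : ℕ)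
  (F : MvPolynomial (Fin (n + 1)) k) (e : ℕ) (g : Matrix (Fin (n + 1)) (Fin (n + 1)) k),
  IsUnit g.det → F.IsHomogeneous e → ∃ c : ℝ, ∀ (S : Finset (HeightOneSpectrum (𝓞 k)))
    (L : Type) [Field L] [NumberField L] [Algebra k L] (x : Fin (n + 1) → L), x ≠ 0 →
    aeval x (lin g F) ≠ 0 →
    truncated S e (lin g F) x ≤
      truncated S e F (fun i => ∑ j, algebraMap k L (g i j) * x j) + c

end Pool.Agent.J4.H2.VT
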