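import Pool.Agent.J4.H2.VT.Defs2
import Pool.Agent.J4.H5.VJ.Defs4

/-!
# Vojta's truncated inequality for all smooth projective varieties: definitions
-/

set_option autoImplicit false

open MvPolynomial NumberField IsDedekindDomain Module

namespace Pool.Agent.J4.H2.VT

open Pool.Agent.J4.H5.VJ

/-- The primes `w` of `L`, not above the primes in `S`, at which the point `x` meets the divisor
`D : G_1 = … = G_u = 0`, the `G_i` forms of degree `e`: `|G_i(x)|_w < max_j |x_j|_w ^ e` for all `i`. -/
def meetsI {k L : Type} [Field k] [NumberField k] [Field L] [NumberField L] [Algebra k L]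
    {M u : ℕ} (S : Finset (HeightOneSpectrum (𝓞 k))) (e : ℕ) (G : Fin u → MvPolynomial (Fin M) k)
    (x : Fin M → L) : Set (HeightOneSpectrum (𝓞 L)) :=
  {w | w ∉ primesAbove S L ∧ ∃ j, ∀ i, w.valuation L (aeval x (G i)) < (w.valuation L (x j)) ^ e}

/-- The truncated counting function `N_S^(1)(D, x)` relative to `k`. -/
noncomputable def truncatedI {k L : Type} [Field k] [NumberField k] [Field L] [NumberField L]
    [Algebra k L] {M u : ℕ} (S : Finset (HeightOneSpectrum (𝓞 k))) (e : ℕ)
    (G : Fin u → MvPolynomial (Fin M) k) (x : Fin M → L) : ℝ :=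
  (∑ᶠ w ∈ meetsI S e G x, Real.log (Ideal.absNorm w.asIdeal : ℝ)) / finrank k L

/-- The height `h_D(x) = e h(x) - h(G_1(x), …, G_u(x))` for the divisor `D : G_1 = … = G_u = 0`, the
`G_i` forms of degree `e` (the sum of the local heights `log (max_j |x_j| ^ e / max_i |G_i(x)|)`). -/
noncomputable def heightD (k : Type) {L : Type} [Field k] [Field L] [NumberField L] [Algebra k L]
    {M u : ℕ} (e : ℕ) (G : Fin u → MvPolynomial (Fin M) k) (x : Fin M → L) : ℝ :=
  e * height k x - height k (fun i => aeval x (G i))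

/-- Vojta's truncated inequality with the error term `A h(x)` for the divisor
`D : G_1 = … = G_u = 0` (the `G_i` forms of degree `e`) on `X : f_1 = … = f_t = 0` of codimension `s`
in `ℙⁿ` and the points of degree at most `r` over `k`: there is a closed subset `P = 0` which contains
no component of `X` such that for all finite sets `S` of primes (the archimedean places are always
added) there is a constant `c` such that for all number fields `L` of degree at most `r` over `k` and
all points `x` of `X` over `L` outside `P = 0` and `D`: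
`h_K(x) + h_D(x) ≤ N_S^(1)(D, x) + A h(x) + d_k(L) + c`. Here
`h_K(x) = h(γ(x)) - (n - s + 1) h(x)` with the Gauss map `γ` is the height for the canonical divisor. -/
def HoldsTV (k : Type) [Field k] [NumberField k] {n t u : ℕ} (s : ℕ)
    (f : Fin t → MvPolynomial (Fin (n + 1)) k) (G : Fin u → MvPolynomial (Fin (n + 1)) k) (e : ℕ)
    (A : ℝ) (r : ℕ) : Prop :=
  ∃ (P : MvPolynomial (Fin (n + 1)) k) (N : ℕ), NZD f P ∧ P.IsHomogeneous N ∧
    ∀ S : Finset (HeightOneSpectrum (𝓞 k)), ∃ c : ℝ,
    ∀ (L : Type) [Field L] [NumberField L] [Algebra k L] (x : Fin (n + 1) → L), x ≠ 0 →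
      (∀ i, aeval x (f i) = 0) → finrank k L ≤ r → aeval x P ≠ 0 → (∃ i, aeval x (G i) ≠ 0) →
      ∀ α : Fin s → Fin t, gaussRow f α x ≠ 0 →
      heightI k (gaussRow f α x) - (n - s + 1) * height k x + heightD k e G x ≤
        truncatedI S e G x + A * height k x + logDisc k L + c

/-- TRUI: the primes at which a point meets a divisor, in a tower. -/
def S_TRUI : Prop := ∀ (k L L' : Type) [Field k] [NumberField k] [Field L] [NumberField L]
  [Field L'] [NumberField L'] [Algebra k L] [Algebra L L'] [Algebra k L'] [IsScalarTower k L L']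
  (M u : ℕ) (S : Finset (HeightOneSpectrum (𝓞 k))) (e m : ℕ) (G : Fin u → MvPolynomial (Fin M) k)
  (x : Fin M → L) (y : Fin M → L'), (∀ i, y i ^ m = algebraMap L L' (x i)) →
  ∀ w ∈ meetsI S (m * e) (fun i => expand m (G i)) y,
    ∃ v ∈ meetsI S e G x, w.asIdeal.LiesOver v.asIdeal

/-- LTRI: truncated counting functions and linear changes of the coordinates. -/
def S_LTRI : Prop := ∀ (k : Type) [Field k] [NumberField k] (n u : ℕ)
  (G : Fin u → MvPolynomial (Fin (n + 1)) k) (e : ℕ) (g : Matrix (Fin (n + 1)) (Fin (n + 1)) k),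
  IsUnit g.det → (∀ i, (G i).IsHomogeneous e) → ∃ c : ℝ, ∀ (S : Finset (HeightOneSpectrum (𝓞 k)))
    (L : Type) [Field L] [NumberField L] [Algebra k L] (x : Fin (n + 1) → L), x ≠ 0 →
    (∃ i, aeval x (lin g (G i)) ≠ 0) →
    truncatedI S e (fun i => lin g (G i)) x ≤
      truncatedI S e G (fun i => ∑ j, algebraMap k L (g i j) * x j) + c

/-- GLIN: the Gauss map and linear changes of the coordinates. -/
def S_GLIN : Prop := ∀ (k : Type) [Field k] [NumberField k] (n t s : ℕ)
  (f : Fin t → MvPolynomial (Fin (n + 1)) k) (g : Matrix (Fin (n + 1)) (Fin (n + 1)) k),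
  IsUnit g.det → ∃ c : ℝ,
    ∀ (L : Type) [Field L] [NumberField L] [Algebra k L] (x : Fin (n + 1) → L)
    (α : Fin s → Fin t), gaussRow f α (fun i => ∑ j, algebraMap k L (g i j) * x j) ≠ 0 →
    gaussRow (fun i => lin g (f i)) α x ≠ 0 ∧
    heightI k (gaussRow f α (fun i => ∑ j, algebraMap k L (g i j) * x j)) ≤
      heightI k (gaussRow (fun i => lin g (f i)) α x) + c

end Pool.Agent.J4.H2.VT
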