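import Pool.Agent.J4.H2.VT.Defs

/-!
# Vojta's truncated inequality: assembly
-/

set_option autoImplicit false

open MvPolynomial NumberField IsDedekindDomain Module

namespace Pool.Agent.J4.H2.VT

open Pool.Agent.J4.H5.VJ

open scoped Classical in
theorem sum_union_le {ι : Type} (A B : Finset ι) (f : ι → ℝ) (hf : ∀ i, 0 ≤ f i) :
    ∑ i ∈ A ∪ B, f i ≤ ∑ i ∈ A, f i + ∑ i ∈ B, f i := by
  rw [← Finset.sum_union_inter]
  linarith [Finset.sum_nonneg (s := A ∩ B) (fun i _ => hf i)]

theorem logn_nonneg {L : Type} [Field L] [NumberField L] (w : HeightOneSpectrum (𝓞 L)) :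
    0 ≤ Real.log (Ideal.absNorm w.asIdeal : ℝ) := Real.log_natCast_nonneg _

theorem fin_tower (k L L' : Type) [Field k] [NumberField k] [Field L] [NumberField L]
    [Field L'] [NumberField L'] [Algebra k L] [Algebra L L'] [Algebra k L'] [IsScalarTower k L L'] :
    (finrank k L' : ℝ) = finrank k L * finrank L L' := by
  have := finrank_mul_finrank k L L'
  exact_mod_cast this.symm

/-- the counting function of a sum -/
theorem sub_add (hFIN : S_FIN) {k L : Type} [Field k] [NumberField k] [Field L] [NumberField L]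
    [Algebra k L] {M : ℕ} (S : Finset (HeightOneSpectrum (𝓞 k))) (a b : ℕ)
    (F H : MvPolynomial (Fin M) k) (x : Fin M → L) (hF : aeval x F ≠ 0) (hH : aeval x H ≠ 0) :
    truncated S (a + b) (F * H) x ≤ truncated S a F x + truncated S b H x := by
  classical
  have h0 : (0 : ℝ) ≤ finrank k L := by positivity
  unfold truncated
  rw [← add_div]
  refine div_le_div_of_nonneg_right ?_ h0
  have f1 := hFIN k L M S a F x hF
  have f2 := hFIN k L M S b H x hH
  have f3 := hFIN k L M S (a + b) (F * H) x (by rw [map_mul]; exact mul_ne_zero hF hH)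
  rw [finsum_mem_eq_finite_toFinset_sum _ f1, finsum_mem_eq_finite_toFinset_sum _ f2,
    finsum_mem_eq_finite_toFinset_sum _ f3]
  refine le_trans (Finset.sum_le_sum_of_subset_of_nonneg ?_ (fun i _ _ => logn_nonneg i))
    (sum_union_le _ _ _ logn_nonneg)
  intro w hw
  rw [Set.Finite.mem_toFinset] at hw
  rw [Finset.mem_union, Set.Finite.mem_toFinset, Set.Finite.mem_toFinset]
  by_contra hcon
  push Not at hcon
  obtain ⟨hw1, j, hj⟩ := hw
  have c1 : ¬ w.valuation L (aeval x F) < (w.valuation L (x j)) ^ a :=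
    fun h => hcon.1 ⟨hw1, j, h⟩
  have c2 : ¬ w.valuation L (aeval x H) < (w.valuation L (x j)) ^ b :=
    fun h => hcon.2 ⟨hw1, j, h⟩
  rw [not_lt] at c1 c2
  rw [map_mul, map_mul, pow_add] at hj
  exact absurd (lt_of_lt_of_le hj (le_refl _)) (not_lt.mpr (mul_le_mul' c1 c2))

/-- the inequality for `F` and the coordinate hyperplanes from the weak one for `F(x^m)` -/
theorem lift (hSER : S_SER2) (hTRU : S_TRU) (hFIN : S_FIN) (hABV : S_ABV) (hTST : S_TST)
    (hPOW : ∀ (k L : Type) [Field k] [NumberField k] [Field L] [NumberField L] [Algebra k L]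
      (M m : ℕ) (y : Fin M → L), 1 ≤ m → 1 ≤ M → height k (fun i => y i ^ m) = m * height k y)
    (hHT : S_HT) (hUNR : S_UNR) (hKUM : S_KUM) (hDIV : S_DIV) (hDISC : S_DISC) (hNORM : S_NORM)
    (k : Type) [Field k] [NumberField k] (n : ℕ) (F : MvPolynomial (Fin (n + 1)) k) (e : ℕ)
    (hF : F.IsHomogeneous e) (m : ℕ) (hm : 1 ≤ m) (δ : ℝ) (r : ℕ)
    (hH : ∀ r', HoldsT k (expand m F) (m * e) (δ * (m * e)) r') :
    HoldsT k (F * ∏ i, X i) (e + (n + 1)) (n + 1 + δ * e) r := by
  classical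
  obtain ⟨B, hB⟩ := hKUM n m hm
  obtain ⟨G, hG0, hG⟩ := hH (r * B)
  obtain ⟨G', hG'0, hG'⟩ := hNORM k n m hm G hG0
  refine ⟨G', hG'0, fun S => ?_⟩
  obtain ⟨c, hc⟩ := hG S
  obtain ⟨S', hS'⟩ := hTST k n e F hF
  refine ⟨c + ∑ v ∈ S, Real.log (Ideal.absNorm v.asIdeal : ℝ) +
    ∑ v ∈ S', Real.log (Ideal.absNorm v.asIdeal : ℝ) + finrank ℚ k * Real.log m +
    finrank ℚ k * Real.log B, ?_⟩
  intro L _ _ _ x hr hx hFx
  have hFx0 : aeval (pt x) F ≠ 0 := by
    intro h; apply hFx; rw [map_mul, h, zero_mul]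
  have hx0 : ∀ i, x i ≠ 0 := by
    intro i h
    apply hFx
    rw [map_mul, map_prod]
    refine mul_eq_zero_of_right _ (Finset.prod_eq_zero (Finset.mem_univ i.succ) ?_)
    rw [aeval_X]
    simp [pt, h]
  obtain ⟨L', i1, i2, i3, i4, y, Θ, hN, hy, hΘ, hΘ'⟩ := hB L x hx0
  letI : Algebra k L' := ((algebraMap L L').comp (algebraMap k L)).toAlgebra
  haveI : IsScalarTower k L L' := IsScalarTower.of_algebraMap_eq (fun _ => rfl)
  have hpy : ∀ i, pt y i ^ m = algebraMap L L' (pt x i) := by
    intro i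
    refine Fin.cases ?_ (fun j => ?_) i
    · simp [pt]
    · simp [pt, hy]
  have hkL : 0 < (finrank k L : ℝ) := by
    haveI : Module.Finite k L := Module.Finite.of_restrictScalars_finite ℚ k L
    exact_mod_cast finrank_pos
  have hLL' : 0 < (finrank L L' : ℝ) := by
    haveI : Module.Finite L L' := Module.Finite.of_restrictScalars_finite ℚ L L'
    exact_mod_cast finrank_pos
  have htow := fin_tower k L L'
  have hQL : (finrank ℚ L : ℝ) = finrank ℚ k * finrank k L := by
    have := finrank_mul_finrank ℚ k L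
    exact_mod_cast this.symm
  have hexp : aeval (pt y) (expand m F) = algebraMap L L' (aeval (pt x) F) := by
    rw [aeval_expand, ← aeval_algebraMap_apply]
    congr 1
    congr 1
    funext i
    exact hpy i
  have hexp0 : aeval (pt y) (expand m F) ≠ 0 := by
    rw [hexp]
    exact (map_ne_zero (algebraMap L L')).mpr hFx0
  -- the sets of primes
  have fM := hFIN k L (n + 1) S (e + (n + 1)) (F * ∏ i, X i) (pt x) hFx
  have fS := (hABV k L S).1
  have fS' := (hABV k L S').1
  have fW := hFIN k L' (n + 1) S (m * e) (expand m F) (pt y) hexp0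
  obtain ⟨Tm, hTm1, hTm2⟩ := hDIV m hm L
  have hser := hSER L L' (fM.toFinset ∪ fS.toFinset ∪ fS'.toFinset ∪ Tm) fW.toFinset
    (by
      intro P hP
      rw [Set.Finite.mem_toFinset] at hP
      obtain ⟨v, hv, hPv⟩ := hTRU k L L' (n + 1) S e m F (pt x) (pt y) hpy P hP
      refine ⟨v, ?_, hPv⟩
      by_contra hcon
      simp only [Finset.mem_union, Set.Finite.mem_toFinset, not_or] at hcon
      exact (hS' L S x hx0 v hcon.1.1.2 hcon.1.2 hcon.1.1.1).1 hv)
    (by
      intro P hP
      have hlo : ∃ v : HeightOneSpectrum (𝓞 L), P.asIdeal.LiesOver v.asIdeal := by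
        haveI : P.asIdeal.IsPrime := P.isPrime
        refine ⟨⟨P.asIdeal.under (𝓞 L), inferInstance, ?_⟩, ?_⟩
        · intro h
          exact P.ne_bot (Ideal.eq_bot_of_comap_eq_bot (R := 𝓞 L) (by simpa [Ideal.under] using h))
        · exact ⟨rfl⟩
      obtain ⟨v, hPv⟩ := hlo
      refine ⟨v, ?_, hPv⟩
      by_contra hcon
      simp only [Finset.mem_union, Set.Finite.mem_toFinset, not_or] at hcon
      have h1 := (hS' L S x hx0 v hcon.1.1.2 hcon.1.2 hcon.1.1.1).2
      refine hUNR L L' m Θ hm hΘ P v hPv (hTm1 v hcon.2) ?_ hP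
      intro θ hθ
      rcases hΘ' θ hθ with h | ⟨i, h⟩
      · exact ⟨1, map_one _, by rw [h, map_one]⟩
      · exact ⟨x i, h1 i, h⟩)
  have hmain := hc L' y (by
      have : finrank k L' = finrank k L * finrank L L' := (finrank_mul_finrank k L L').symm
      rw [this]
      exact Nat.mul_le_mul hr hN) (by
      intro h
      apply hx
      have h2 := hG' L' y h
      have h3 : (fun i => y i ^ m) = algebraMap L L' ∘ x := funext hy
      rw [h3, aeval_algebraMap_apply] at h2
      exact (map_eq_zero (algebraMap L L')).mp h2) hexp0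
  have hh : height k (pt x) = m * height k (pt y) := by
    rw [← hPOW k L' (n + 1) m (pt y) hm (by omega)]
    have h3 : (fun i => pt y i ^ m) = fun i => algebraMap L L' (pt x i) := funext hpy
    rw [h3, hHT k L L' (n + 1) (pt x)]
  rw [hDISC k L L'] at hmain
  have hsumT : ∑ v ∈ fM.toFinset ∪ fS.toFinset ∪ fS'.toFinset ∪ Tm,
      Real.log (Ideal.absNorm v.asIdeal : ℝ) ≤
      finrank k L * (truncated S (e + (n + 1)) (F * ∏ i, X i) (pt x) +
        ∑ v ∈ S, Real.log (Ideal.absNorm v.asIdeal : ℝ) +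
        ∑ v ∈ S', Real.log (Ideal.absNorm v.asIdeal : ℝ) + finrank ℚ k * Real.log m) := by
    have a1 := sum_union_le (fM.toFinset ∪ fS.toFinset ∪ fS'.toFinset) Tm
      (fun v => Real.log (Ideal.absNorm v.asIdeal : ℝ)) logn_nonneg
    have a2 := sum_union_le (fM.toFinset ∪ fS.toFinset) fS'.toFinset
      (fun v => Real.log (Ideal.absNorm v.asIdeal : ℝ)) logn_nonneg
    have a3 := sum_union_le fM.toFinset fS.toFinset
      (fun v => Real.log (Ideal.absNorm v.asIdeal : ℝ)) logn_nonneg
    have b1 : ∑ v ∈ fM.toFinset, Real.log (Ideal.absNorm v.asIdeal : ℝ) =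
        finrank k L * truncated S (e + (n + 1)) (F * ∏ i, X i) (pt x) := by
      unfold truncated
      rw [finsum_mem_eq_finite_toFinset_sum _ fM]
      field_simp
    have b2 := (hABV k L S).2
    rw [finsum_mem_eq_finite_toFinset_sum _ fS] at b2
    have b3 := (hABV k L S').2
    rw [finsum_mem_eq_finite_toFinset_sum _ fS'] at b3
    rw [hQL] at hTm2
    nlinarith
  have hlogN : Real.log (finrank L L' : ℝ) ≤ Real.log B :=
    Real.log_le_log hLL' (by exact_mod_cast hN)
  have htr : truncated S (m * e) (expand m F) (pt y) = (∑ P ∈ fW.toFinset,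
      Real.log (Ideal.absNorm P.asIdeal : ℝ)) / finrank k L' := by
    unfold truncated
    rw [finsum_mem_eq_finite_toFinset_sum _ fW]
  rw [htr] at hmain
  have hkey : (∑ P ∈ fW.toFinset, Real.log (Ideal.absNorm P.asIdeal : ℝ)) / finrank k L' +
      Real.log (Ideal.absNorm (differentIdeal (𝓞 L) (𝓞 L')) : ℝ) / finrank k L' ≤
      truncated S (e + (n + 1)) (F * ∏ i, X i) (pt x) +
        ∑ v ∈ S, Real.log (Ideal.absNorm v.asIdeal : ℝ) +
        ∑ v ∈ S', Real.log (Ideal.absNorm v.asIdeal : ℝ) + finrank ℚ k * Real.log m +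
        finrank ℚ k * Real.log B := by
    rw [← add_div, div_le_iff₀ (by rw [htow]; positivity), htow]
    refine le_trans hser ?_
    rw [hQL]
    have hQk : (0 : ℝ) ≤ finrank ℚ k := by positivity
    have c1 : (finrank ℚ k : ℝ) * finrank k L * Real.log (finrank L L' : ℝ) ≤
        finrank ℚ k * finrank k L * Real.log B :=
      mul_le_mul_of_nonneg_left hlogN (by positivity)
    have c2 : ∑ v ∈ fM.toFinset ∪ fS.toFinset ∪ fS'.toFinset ∪ Tm,
        Real.log (Ideal.absNorm v.asIdeal : ℝ) +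
        finrank ℚ k * finrank k L * Real.log (finrank L L' : ℝ) ≤
        finrank k L * (truncated S (e + (n + 1)) (F * ∏ i, X i) (pt x) +
        ∑ v ∈ S, Real.log (Ideal.absNorm v.asIdeal : ℝ) +
        ∑ v ∈ S', Real.log (Ideal.absNorm v.asIdeal : ℝ) + finrank ℚ k * Real.log m +
        finrank ℚ k * Real.log B) := by nlinarith
    calc _ ≤ (finrank L L' : ℝ) * _ := mul_le_mul_of_nonneg_left c2 hLL'.le
      _ = _ := by ring
  push_cast at hmain ⊢
  have e1 : ((m : ℝ) * e - δ * (m * e)) * height k (pt y) = (e - δ * e) * height k (pt x) := by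
    rw [hh]; ring
  rw [e1] at hmain
  have e2 : ((e : ℝ) + (n + 1) - (n + 1 + δ * e)) * height k (pt x) =
      (e - δ * e) * height k (pt x) := by ring
  rw [e2]
  linarith

theorem height_nonneg {k L : Type} [Field k] [Field L] [NumberField L] [Algebra k L] {M : ℕ}
    (x : Fin M → L) : 0 ≤ height k x := by
  unfold height
  exact div_nonneg (Height.logHeight_nonneg x) (by positivity)

theorem mono {k : Type} [Field k] [NumberField k] {n : ℕ} {F : MvPolynomial (Fin (n + 1)) k} {e : ℕ}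
    {A A' : ℝ} {r : ℕ} (h : A ≤ A') (hA : HoldsT k F e A r) : HoldsT k F e A' r := by
  obtain ⟨G, hG0, hG⟩ := hA
  refine ⟨G, hG0, fun S => ?_⟩
  obtain ⟨c, hc⟩ := hG S
  refine ⟨c, fun L _ _ _ x hr hx hFx => ?_⟩
  have := hc L x hr hx hFx
  have h0 := height_nonneg (k := k) (pt x)
  nlinarith

/-- the inequality for `F` from the one for `F` and the coordinate hyperplanes -/
theorem weak (hFIN : S_FIN) (hHYP : S_HYP) (k : Type) [Field k] [NumberField k] (n : ℕ)
    (F : MvPolynomial (Fin (n + 1)) k) (e : ℕ) (r : ℕ) (A : ℝ)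
    (h : HoldsT k (F * ∏ i, X i) (e + (n + 1)) A r) : HoldsT k F e A r := by
  obtain ⟨G, hG0, hG⟩ := h
  refine ⟨G * ∏ i, X i, mul_ne_zero hG0 (Finset.prod_ne_zero_iff.mpr fun i _ => X_ne_zero i),
    fun S => ?_⟩
  obtain ⟨c, hc⟩ := hG S
  refine ⟨c, fun L _ _ _ x hr hx hFx => ?_⟩
  have hx1 : aeval x G ≠ 0 := by
    intro h; apply hx; rw [map_mul, h, zero_mul]
  have hx0 : ∀ i, x i ≠ 0 := by
    intro i h
    apply hx
    rw [map_mul, map_prod]
    refine mul_eq_zero_of_right _ (Finset.prod_eq_zero (Finset.mem_univ i) ?_)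
    rw [aeval_X]
    exact h
  have hprod : aeval (pt x) (∏ i, X i : MvPolynomial (Fin (n + 1)) k) ≠ 0 := by
    rw [map_prod]
    refine Finset.prod_ne_zero_iff.mpr fun i _ => ?_
    rw [aeval_X]
    refine Fin.cases ?_ (fun j => ?_) i
    · simp [pt]
    · simp [pt, hx0]
  have h1 := hc L x hr hx1 (by rw [map_mul]; exact mul_ne_zero hFx hprod)
  have h2 := sub_add hFIN S e (n + 1) F (∏ i, X i) (pt x) hFx hprod
  have h3 := hHYP k L n S x hx0
  push_cast at h1
  have e1 : ((e : ℝ) + (n + 1) - A) * height k (pt x) =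
      (e - A) * height k (pt x) + (n + 1) * height k (pt x) := by ring
  rw [e1] at h1
  linarith

theorem expand_hom {k : Type} [Field k] {n : ℕ} (F : MvPolynomial (Fin n) k) (e m : ℕ)
    (hF : F.IsHomogeneous e) : (expand m F).IsHomogeneous (m * e) := by
  classical
  rw [F.as_sum, map_sum]
  refine IsHomogeneous.sum _ _ _ fun α hα => ?_
  rw [expand_monomial]
  apply isHomogeneous_monomial
  have h1 : α.degree = e := by
    have h2 := hF (mem_support_iff.1 hα)
    rw [← h2, Finsupp.degree_eq_sum]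
    simp [Finsupp.weight_apply, Finsupp.sum_fintype]
  rw [← h1, Finsupp.degree_eq_sum, Finsupp.degree_eq_sum, Finset.mul_sum]
  exact Finset.sum_congr rfl fun j _ => by rw [Finsupp.smul_apply, smul_eq_mul]

end Pool.Agent.J4.H2.VT
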