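import Pool.Agent.J4.H2.VT.Fin
import Pool.Agent.J4.H2.VT.Defs2

/-!
# Vojta's truncated inequality for all divisors with strict normal crossings: assembly
-/

set_option autoImplicit false

open MvPolynomial NumberField IsDedekindDomain Module

namespace Pool.Agent.J4.H2.VT

open Pool.Agent.J4.H5.VJ

theorem aeval_lin {k L : Type} [Field k] [Field L] [Algebra k L] {n : ℕ}
    (g : Matrix (Fin (n + 1)) (Fin (n + 1)) k) (F : MvPolynomial (Fin (n + 1)) k)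
    (x : Fin (n + 1) → L) :
    aeval x (lin g F) = aeval (fun i => ∑ j, algebraMap k L (g i j) * x j) F := by
  unfold lin
  rw [aeval_bind₁]
  congr 2
  funext i
  simp [map_sum, map_mul]

theorem lin_hom {k : Type} [Field k] {n : ℕ} (g : Matrix (Fin (n + 1)) (Fin (n + 1)) k)
    (F : MvPolynomial (Fin (n + 1)) k) (e : ℕ) (hF : F.IsHomogeneous e) :
    (lin g F).IsHomogeneous e := by
  have h := hF.aeval (fun i => ∑ j, C (g i j) * X j) (n := 1) (fun i => by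
    refine IsHomogeneous.sum _ _ _ fun j _ => ?_
    simpa using (isHomogeneous_C _ (g i j)).mul (isHomogeneous_X k j))
  rw [one_mul] at h
  exact h

theorem lin_ne {k : Type} [Field k] [Infinite k] {n : ℕ}
    (g h : Matrix (Fin (n + 1)) (Fin (n + 1)) k) (hgh : g * h = 1)
    (F : MvPolynomial (Fin (n + 1)) k) (hF : F ≠ 0) : lin g F ≠ 0 := by
  intro h0
  apply hF
  apply MvPolynomial.funext
  intro z
  have h1 : aeval (fun i => ∑ j, h i j * z j) (lin g F) = 0 := by rw [h0, map_zero]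
  rw [aeval_lin] at h1
  have h2 : (fun i => ∑ j, algebraMap k k (g i j) * ∑ l, h j l * z l) = z := by
    funext i
    have h3 : (g * h).mulVec z i = z i := by rw [hgh, Matrix.one_mulVec]
    rw [← h3, ← Matrix.mulVec_mulVec]
    simp [Matrix.mulVec, dotProduct]
  rw [h2] at h1
  rw [map_zero, ← h1]
  rfl

/-- linear changes of the coordinates -/
theorem lint (hLHT : S_LHT) (hLTR : S_LTR) (k : Type) [Field k] [NumberField k] (n : ℕ)
    (F : MvPolynomial (Fin (n + 1)) k) (e : ℕ) (A : ℝ) (r : ℕ)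
    (g : Matrix (Fin (n + 1)) (Fin (n + 1)) k) (hg : IsUnit g.det) (hF : F.IsHomogeneous e)
    (hH : HoldsTH k (lin g F) e A r) : HoldsTH k F e A r := by
  obtain ⟨G, N, hG0, hGN, hG⟩ := hH
  have hgi : g * g⁻¹ = 1 := Matrix.mul_nonsing_inv g hg
  have hig : g⁻¹ * g = 1 := Matrix.nonsing_inv_mul g hg
  refine ⟨lin g⁻¹ G, N, lin_ne g⁻¹ g hig G hG0, lin_hom _ _ _ hGN, fun S => ?_⟩
  obtain ⟨c, hc⟩ := hG S
  obtain ⟨c1, hc1⟩ := hLHT k n g hg
  obtain ⟨c2, hc2⟩ := hLTR k n F e g hg hF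
  refine ⟨c + |e - A| * c1 + c2, fun L _ _ _ x hx hr hGx hFx => ?_⟩
  set y : Fin (n + 1) → L := fun i => ∑ j, algebraMap k L (g⁻¹ i j) * x j with hy
  have hgy : (fun i => ∑ j, algebraMap k L (g i j) * y j) = x := by
    have h1 : (g.map (algebraMap k L)) * (g⁻¹.map (algebraMap k L)) = 1 := by
      rw [← Matrix.map_mul, hgi, Matrix.map_one _ (map_zero _) (map_one _)]
    funext i
    have h3 : ((g.map (algebraMap k L)) * (g⁻¹.map (algebraMap k L))).mulVec x i = x i := by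
      rw [h1, Matrix.one_mulVec]
    rw [← h3, ← Matrix.mulVec_mulVec]
    simp [Matrix.mulVec, dotProduct, hy]
  have hy0 : y ≠ 0 := by
    intro h
    apply hx
    rw [← hgy, h]
    funext i
    simp
  rw [aeval_lin] at hGx
  have h1 := hc L y hy0 hr hGx (by rw [aeval_lin, hgy]; exact hFx)
  have h2 := hc1 L y hy0
  have h3 := hc2 S L y hy0 (by rw [aeval_lin, hgy]; exact hFx)
  rw [hgy] at h2 h3
  have h4 : (e - A) * (height k x - height k y) ≤ |e - A| * c1 := by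
    calc (e - A) * (height k x - height k y) ≤ |(e - A) * (height k x - height k y)| := le_abs_self _
      _ = |e - A| * |height k x - height k y| := abs_mul _ _
      _ ≤ |e - A| * c1 := mul_le_mul_of_nonneg_left h2 (abs_nonneg _)
  linarith

theorem monoH {k : Type} [Field k] [NumberField k] {n : ℕ} {F : MvPolynomial (Fin (n + 1)) k}
    {e : ℕ} {A A' : ℝ} {r : ℕ} (h : A ≤ A') (hA : HoldsTH k F e A r) : HoldsTH k F e A' r := by
  obtain ⟨G, N, hG0, hGN, hG⟩ := hA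
  refine ⟨G, N, hG0, hGN, fun S => ?_⟩
  obtain ⟨c, hc⟩ := hG S
  refine ⟨c, fun L _ _ _ x hx hr hGx hFx => ?_⟩
  have := hc L x hx hr hGx hFx
  have h0 := height_nonneg (k := k) x
  nlinarith

/-- Vojta's truncated inequality for all divisors with strict normal crossings on `ℙⁿ`, and the weak
forms. -/
theorem equivS (hSER : S_SER2) (hTRU : S_TRU) (hFIN : S_FIN) (hABV : S_ABV) (hTST : S_TST)
    (hHYP : S_HYP)
    (hPOW : ∀ (k L : Type) [Field k] [NumberField k] [Field L] [NumberField L] [Algebra k L]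
      (M m : ℕ) (y : Fin M → L), 1 ≤ m → 1 ≤ M → height k (fun i => y i ^ m) = m * height k y)
    (hHT : S_HT) (hUNR : S_UNR) (hKUM : S_KUM) (hDIV : S_DIV) (hDISC : S_DISC) (hNORM : S_NORM)
    (hNC : S_NC2) (hBER : S_BER) (hHOMT : S_HOMT) (hLHT : S_LHT) (hLTR : S_LTR)
    (k : Type) [Field k] [NumberField k] (n : ℕ) :
    ((∀ (e : ℕ) (F : MvPolynomial (Fin (n + 1)) k), 1 ≤ e → F.IsHomogeneous e → IsSNC F →
        ∀ ε : ℝ, 0 < ε → ∀ r : ℕ, HoldsTH k F e (n + 1 + ε) r) ↔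
      ∃ A : ℝ, ∀ (e : ℕ) (F : MvPolynomial (Fin (n + 1)) k), 1 ≤ e → F.IsHomogeneous e →
        IsSNC F → ∀ r : ℕ, HoldsTH k F e A r) ∧
    ((∀ (e : ℕ) (F : MvPolynomial (Fin (n + 1)) k), 1 ≤ e → F.IsHomogeneous e → IsSNC F →
        ∀ ε : ℝ, 0 < ε → ∀ r : ℕ, HoldsTH k F e (n + 1 + ε) r) ↔
      ∀ δ : ℝ, 0 < δ → ∃ e₀ : ℕ, ∀ (e : ℕ) (F : MvPolynomial (Fin (n + 1)) k), e₀ ≤ e → 1 ≤ e →
        F.IsHomogeneous e → IsSNC F → ∀ r : ℕ, HoldsTH k F e (δ * e) r) := by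
  have ab : (∀ (e : ℕ) (F : MvPolynomial (Fin (n + 1)) k), 1 ≤ e → F.IsHomogeneous e →
      IsSNC F → ∀ ε : ℝ, 0 < ε → ∀ r : ℕ, HoldsTH k F e (n + 1 + ε) r) →
      ∃ A : ℝ, ∀ (e : ℕ) (F : MvPolynomial (Fin (n + 1)) k), 1 ≤ e → F.IsHomogeneous e →
        IsSNC F → ∀ r : ℕ, HoldsTH k F e A r := fun h =>
    ⟨n + 1 + 1, fun e F he hF hT r => h e F he hF hT 1 one_pos r⟩
  have bc : (∃ A : ℝ, ∀ (e : ℕ) (F : MvPolynomial (Fin (n + 1)) k), 1 ≤ e → F.IsHomogeneous e →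
        IsSNC F → ∀ r : ℕ, HoldsTH k F e A r) →
      ∀ δ : ℝ, 0 < δ → ∃ e₀ : ℕ, ∀ (e : ℕ) (F : MvPolynomial (Fin (n + 1)) k), e₀ ≤ e → 1 ≤ e →
        F.IsHomogeneous e → IsSNC F → ∀ r : ℕ, HoldsTH k F e (δ * e) r := by
    rintro ⟨A, hA⟩ δ hδ
    refine ⟨⌈A / δ⌉₊, fun e F he he1 hF hT r => monoH ?_ (hA e F he1 hF hT r)⟩
    have h1 : A / δ ≤ e := le_trans (Nat.le_ceil _) (by exact_mod_cast he)
    rw [div_le_iff₀ hδ] at h1
    linarith
  have ca : (∀ δ : ℝ, 0 < δ → ∃ e₀ : ℕ, ∀ (e : ℕ) (F : MvPolynomial (Fin (n + 1)) k), e₀ ≤ e →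
        1 ≤ e → F.IsHomogeneous e → IsSNC F → ∀ r : ℕ, HoldsTH k F e (δ * e) r) →
      ∀ (e : ℕ) (F : MvPolynomial (Fin (n + 1)) k), 1 ≤ e → F.IsHomogeneous e → IsSNC F →
        ∀ ε : ℝ, 0 < ε → ∀ r : ℕ, HoldsTH k F e (n + 1 + ε) r := by
    intro h e F he hF hT ε hε r
    have he' : (0 : ℝ) < e := by exact_mod_cast he
    obtain ⟨g, hg, hgT⟩ := hBER k n F hT
    have hgF := lin_hom g F e hF
    obtain ⟨e₀, h₀⟩ := h (ε / e) (div_pos hε he')
    have hm : 1 ≤ max 1 e₀ := le_max_left _ _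
    have hnc := hNC k n (max 1 e₀) (lin g F) e hm hgF hgT
    have h1 := lift hSER hTRU hFIN hABV hTST hPOW hHT hUNR hKUM hDIV hDISC hNORM k n (lin g F) e hgF
      (max 1 e₀) hm (ε / e) r (fun r' => by
        rw [hHOMT k n _ _ _ _ hnc.1]
        have h2 := h₀ (max 1 e₀ * e) (expand (max 1 e₀) (lin g F))
          (le_trans (le_max_right 1 e₀) (Nat.le_mul_of_pos_right _ he))
          (Nat.one_le_iff_ne_zero.mpr (by positivity)) hnc.1 hnc.2.2 r'
        push_cast at h2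
        exact_mod_cast h2)
    have e1 : (n : ℝ) + 1 + ε / e * e = n + 1 + ε := by field_simp
    rw [e1] at h1
    have h2 := weak hFIN hHYP k n (lin g F) e r _ h1
    rw [hHOMT k n _ _ _ _ hgF] at h2
    exact lint hLHT hLTR k n F e _ r g hg hF h2
  exact ⟨⟨ab, fun h => ca (bc h)⟩, ⟨fun h => bc (ab h), ca⟩⟩

end Pool.Agent.J4.H2.VT
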