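import Pool.Agent.J4.H2.VT.Defs2
import Pool.Agent.J4.H5.VJ.T_HOM

/-!
# Homogeneous coordinates in the truncated inequality
-/

set_option autoImplicit false

open MvPolynomial NumberField IsDedekindDomain Module

namespace Pool.Agent.J4.H2.VT

open Pool.Agent.J4.H5.VJ Pool.Agent.J4.H5.VJ.Hom

theorem meets_smul {k L : Type} [Field k] [NumberField k] [Field L] [NumberField L]
    [Algebra k L] {M : ℕ} (S : Finset (HeightOneSpectrum (𝓞 k))) {e : ℕ}
    {F : MvPolynomial (Fin M) k} (hF : F.IsHomogeneous e) {c : L} (hc : c ≠ 0) (x : Fin M → L) :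
    meets S e F (c • x) = meets S e F x := by
  ext w
  have h1 : 0 < w.valuation L c ^ e :=
    zero_lt_iff.2 (pow_ne_zero _ ((Valuation.ne_zero_iff _).2 hc))
  have h2 : ∀ j, w.valuation L (aeval (c • x) F) < w.valuation L ((c • x) j) ^ e ↔
      w.valuation L (aeval x F) < w.valuation L (x j) ^ e := by
    intro j
    rw [aeval_smul hF, map_mul, map_pow, Pi.smul_apply, smul_eq_mul, map_mul, mul_pow]
    exact mul_lt_mul_iff_right₀ h1
  show (w ∉ primesAbove S L ∧ _) ↔ (w ∉ primesAbove S L ∧ _)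
  simp only [h2]

theorem truncated_smul {k L : Type} [Field k] [NumberField k] [Field L] [NumberField L]
    [Algebra k L] {M : ℕ} (S : Finset (HeightOneSpectrum (𝓞 k))) {e : ℕ}
    {F : MvPolynomial (Fin M) k} (hF : F.IsHomogeneous e) {c : L} (hc : c ≠ 0) (x : Fin M → L) :
    truncated S e F (c • x) = truncated S e F x := by
  unfold truncated
  rw [meets_smul S hF hc]

theorem t_HOMT : S_HOMT := by
  intro k _ _ n F e A r hF
  have : Infinite k := inferInstance
  constructor
  · rintro ⟨G, hG, h⟩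
    have hz0 : hz G ≠ 0 := by
      obtain ⟨y, hy⟩ := exists_ne hG
      intro h0
      apply hy
      rw [← aeval_hz G y, h0, map_zero]
    refine ⟨X 0 * hz G, 1 + G.totalDegree, mul_ne_zero (X_ne_zero _) hz0,
      (isHomogeneous_X _ _).mul (hz_hom G), fun S => ?_⟩
    obtain ⟨c, hc⟩ := h S
    refine ⟨c, fun L _ _ _ x hx hr h1 h2 => ?_⟩
    have hx0 : x 0 ≠ 0 := by
      intro h0
      apply h1
      rw [map_mul, aeval_X, h0, zero_mul]
    obtain ⟨c0, hc0, y, rfl⟩ := exists_pt x hx0
    rw [truncated_smul S hF hc0, height_smul k hc0]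
    apply hc L y hr
    · intro h0
      apply h1
      rw [map_mul, aeval_smul (hz_hom G), aeval_hz, h0, mul_zero, mul_zero]
    · intro h0
      apply h2
      rw [aeval_smul hF, h0, mul_zero]
  · rintro ⟨G, N, hG, hGN, h⟩
    have key : ∀ (L : Type) [Field L] [Algebra k L] (y : Fin n → L),
        aeval y (bind₁ (Fin.cons 1 X : Fin (n + 1) → MvPolynomial (Fin n) k) G)
          = aeval (pt y) G := by
      intro L _ _ y
      rw [aeval_bind₁]
      congr 2
      funext i
      refine Fin.cases ?_ (fun i => ?_) i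
      · simp [pt]
      · simp [pt]
    refine ⟨bind₁ (Fin.cons 1 X : Fin (n + 1) → MvPolynomial (Fin n) k) G, ?_, fun S => ?_⟩
    · intro h0
      obtain ⟨x, hx⟩ := exists_ne (mul_ne_zero (X_ne_zero (0 : Fin (n + 1))) hG)
      rw [map_mul, aeval_X] at hx
      obtain ⟨c0, hc0, y, rfl⟩ := exists_pt x (left_ne_zero_of_mul hx)
      apply right_ne_zero_of_mul hx
      rw [aeval_smul hGN, ← key k y, h0, map_zero, mul_zero]
    · obtain ⟨c, hc⟩ := h S
      refine ⟨c, fun L _ _ _ x hr h1 h2 => ?_⟩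
      rw [key L x] at h1
      apply hc L (pt x) _ hr h1 h2
      intro h0
      have h3 := congrFun h0 0
      simp [pt] at h3

end Pool.Agent.J4.H2.VT
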