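import Pool.Agent.J4.H2.VT.Fin
import Pool.Agent.J4.H2.VT.Defs2
import Pool.Agent.J4.H2.VT.T_HOMT
import Pool.Agent.J4.H5.VJ.Main3
import Pool.Agent.J4.H5.VJ.T_LINX

/-!
# Vojta's truncated inequality for smooth complete intersections
-/

set_option autoImplicit false

open MvPolynomial NumberField IsDedekindDomain Module

namespace Pool.Agent.J4.H2.VT

open Pool.Agent.J4.H5.VJ

/-- Vojta's truncated inequality with the constant `A` for the divisor `F = 0` (`F` a form of degree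
`e`) on `X : f_1 = … = f_s = 0` in `ℙⁿ` and the points of degree at most `r` over `k`: there is a closed
subset `G = 0` which contains no component of `X` such that for all finite sets `S` of primes (the
archimedean places are always added) there is a constant `c` such that for all number fields `L` of
degree at most `r` over `k` and all points `x` of `X` over `L` outside `G = 0` and `F = 0`
`(e - A) h(x) ≤ N_S^(1)(D, x) + d_k(L) + c`. -/
def HoldsTX (k : Type) [Field k] [NumberField k] {n s : ℕ}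
    (f : Fin s → MvPolynomial (Fin (n + 1)) k) (F : MvPolynomial (Fin (n + 1)) k) (e : ℕ)
    (A : ℝ) (r : ℕ) : Prop :=
  ∃ (G : MvPolynomial (Fin (n + 1)) k) (N : ℕ), NZD f G ∧ G.IsHomogeneous N ∧
    ∀ S : Finset (HeightOneSpectrum (𝓞 k)), ∃ c : ℝ,
    ∀ (L : Type) [Field L] [NumberField L] [Algebra k L] (x : Fin (n + 1) → L), x ≠ 0 →
      (∀ i, aeval x (f i) = 0) → finrank k L ≤ r → aeval x G ≠ 0 → aeval x F ≠ 0 →
      (e - A) * height k x ≤ truncated S e F x + logDisc k L + c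

/-- The descent from the pull back under the power map. -/
theorem liftX (hSER : S_SER2) (hTRU : S_TRU) (hFIN : S_FIN) (hABV : S_ABV) (hTST : S_TST)
    (hHYP : S_HYP)
    (hPOW : ∀ (k L : Type) [Field k] [NumberField k] [Field L] [NumberField L] [Algebra k L]
      (M m : ℕ) (y : Fin M → L), 1 ≤ m → 1 ≤ M → height k (fun i => y i ^ m) = m * height k y)
    (hHT : S_HT) (hUNR : S_UNR) (hKUM : S_KUM) (hDIV : S_DIV) (hDISC : S_DISC) (hPUSHX : S_PUSHX)
    (k : Type) [Field k] [NumberField k] {n s : ℕ} (f : Fin s → MvPolynomial (Fin (n + 1)) k)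
    (d : Fin s → ℕ) (hf : ∀ i, (f i).IsHomogeneous (d i)) (hX : ∀ l, NZD f (X l))
    (F : MvPolynomial (Fin (n + 1)) k) (e m : ℕ) (hF : F.IsHomogeneous e)
    (hm : 1 ≤ m) (A : ℝ) (r : ℕ)
    (hH : ∀ r', HoldsTX k (fun i => expand m (f i)) (expand m F) (m * e) (A * m) r') :
    HoldsTX k f F e (n + 1 + A) r := by
  classical
  obtain ⟨B, hB⟩ := hKUM n m hm
  obtain ⟨G, N₁, hG0, hN₁, hG⟩ := hH (r * B)
  obtain ⟨G', N₂, hG'0, hN₂, hG'⟩ := hPUSHX k n s m f G N₁ hm hG0 hN₁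
  refine ⟨G' * ∏ i, X i, N₂ + ∑ i : Fin (n + 1), 1, nzd_mul hG'0 (nzd_prod _ _ hX),
    hN₂.mul (IsHomogeneous.prod _ _ _ fun i _ => isHomogeneous_X k i), fun S => ?_⟩
  obtain ⟨c, hc⟩ := hG S
  obtain ⟨S', hS'⟩ := hTST k n e F hF
  refine ⟨c + ∑ v ∈ S, Real.log (Ideal.absNorm v.asIdeal : ℝ) +
    ∑ v ∈ S', Real.log (Ideal.absNorm v.asIdeal : ℝ) + finrank ℚ k * Real.log m +
    finrank ℚ k * Real.log B, ?_⟩
  intro L _ _ _ x₀ hxne hfx₀ hr hGx hFx₀
  rw [map_mul, map_prod, mul_ne_zero_iff, Finset.prod_ne_zero_iff] at hGx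
  obtain ⟨hx, hx1⟩ := hGx
  have hx00 : ∀ i, x₀ i ≠ 0 := fun i => by simpa using hx1 i (Finset.mem_univ i)
  obtain ⟨c₀, hc₀, x, rfl⟩ := Hom.exists_pt x₀ (hx00 0)
  rw [truncated_smul S hF hc₀, Hom.height_smul k hc₀]
  have hx0 : ∀ i, x i ≠ 0 := by
    intro i h0
    apply hx00 i.succ
    simp [pt, h0]
  have hfx : ∀ i, aeval (pt x) (f i) = 0 := by
    intro i
    have := hfx₀ i
    rw [Hom.aeval_smul (hf i)] at this
    exact (mul_eq_zero.1 this).resolve_left (pow_ne_zero _ hc₀)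
  rw [Hom.aeval_smul hN₂] at hx
  replace hx := (mul_ne_zero_iff.1 hx).2
  rw [Hom.aeval_smul hF] at hFx₀
  have hFx0 := (mul_ne_zero_iff.1 hFx₀).2
  have hprod : aeval (pt x) (∏ i, X i : MvPolynomial (Fin (n + 1)) k) ≠ 0 := by
    rw [map_prod]
    refine Finset.prod_ne_zero_iff.mpr fun i _ => ?_
    rw [aeval_X]
    refine Fin.cases ?_ (fun j => ?_) i
    · simp [pt]
    · simp [pt, hx0]
  have hFx : aeval (pt x) (F * ∏ i, X i) ≠ 0 := by
    rw [map_mul]; exact mul_ne_zero hFx0 hprod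
  obtain ⟨L', i1, i2, i3, i4, y, Θ, hN, hy, hΘ, hΘ'⟩ := hB L x hx0
  letI : Algebra k L' := ((algebraMap L L').comp (algebraMap k L)).toAlgebra
  haveI : IsScalarTower k L L' := IsScalarTower.of_algebraMap_eq (fun _ => rfl)
  have hpy : ∀ i, pt y i ^ m = algebraMap L L' (pt x i) := by
    intro i
    refine Fin.cases ?_ (fun j => ?_) i
    · simp [pt]
    · simp [pt, hy]
  have hpyf : (fun i => pt y i ^ m) = fun i => algebraMap L L' (pt x i) := funext hpy
  have hkL : 0 < (finrank k L : ℝ) := by exact_mod_cast finrank_pos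
  have hLL' : 0 < (finrank L L' : ℝ) := by exact_mod_cast finrank_pos
  have htow := fin_tower k L L'
  have hQL : (finrank ℚ L : ℝ) = finrank ℚ k * finrank k L := by
    have := finrank_mul_finrank ℚ k L
    exact_mod_cast this.symm
  have hexp : ∀ P : MvPolynomial (Fin (n + 1)) k,
      aeval (pt y) (expand m P) = algebraMap L L' (aeval (pt x) P) := by
    intro P
    rw [aeval_expand', hpyf, aeval_ext]
  have hexp0 : aeval (pt y) (expand m F) ≠ 0 := by
    rw [hexp]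
    exact (map_ne_zero (algebraMap L L')).mpr hFx0
  -- the sets of primes
  have fM := hFIN k L (n + 1) S (e + (n + 1)) (F * ∏ i, X i) (pt x) hFx
  have fS := (hABV k L S).1
  have fS' := (hABV k L S').1
  have fW := hFIN k L' (n + 1) S (m * e) (expand m F) (pt y) hexp0
  obtain ⟨Tm, hTm1, hTm2⟩ := hDIV m hm L
  have hser := hSER L L' (fM.toFinset ∪ fS.toFinset ∪ fS'.toFinset ∪ Tm) fW.toFinset
    (by
      intro P hP
      rw [Set.Finite.mem_toFinset] at hP
      obtain ⟨v, hv, hPv⟩ := hTRU k L L' (n + 1) S e m F (pt x) (pt y) hpy P hP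
      refine ⟨v, ?_, hPv⟩
      by_contra hcon
      simp only [Finset.mem_union, Set.Finite.mem_toFinset, not_or] at hcon
      exact (hS' L S x hx0 v hcon.1.1.2 hcon.1.2 hcon.1.1.1).1 hv)
    (by
      intro P hP
      have hlo : ∃ v : HeightOneSpectrum (𝓞 L), P.asIdeal.LiesOver v.asIdeal :=
        ⟨P.under (𝓞 L), ⟨rfl⟩⟩
      obtain ⟨v, hPv⟩ := hlo
      refine ⟨v, ?_, hPv⟩
      by_contra hcon
      simp only [Finset.mem_union, Set.Finite.mem_toFinset, not_or] at hcon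
      have h1 := (hS' L S x hx0 v hcon.1.1.2 hcon.1.2 hcon.1.1.1).2
      refine hUNR L L' m Θ hm hΘ P v hPv (hTm1 v hcon.2) ?_ hP
      intro θ hθ
      rcases hΘ' θ hθ with h | ⟨i, h⟩
      · exact ⟨1, map_one _, by rw [h, map_one]⟩
      · exact ⟨x i, h1 i, h⟩)
  have hmain := hc L' (pt y) (pt_ne_zero y) (by
      intro i
      rw [hexp, hfx i, map_zero]) (by
      have : finrank k L' = finrank k L * finrank L L' := (finrank_mul_finrank k L L').symm
      rw [this]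
      exact Nat.mul_le_mul hr hN) (by
      intro h
      apply hx
      have h2 := hG' L' (pt y) h
      rw [hpyf, aeval_ext] at h2
      exact (map_eq_zero (algebraMap L L')).mp h2) hexp0
  have hh : height k (pt x) = m * height k (pt y) := by
    rw [← hPOW k L' (n + 1) m (pt y) hm (by omega), hpyf, hHT k L L' (n + 1) (pt x)]
  rw [hDISC k L L'] at hmain
  have hsumT : ∑ v ∈ fM.toFinset ∪ fS.toFinset ∪ fS'.toFinset ∪ Tm,
      Real.log (Ideal.absNorm v.asIdeal : ℝ) ≤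
      finrank k L * (truncated S (e + (n + 1)) (F * ∏ i, X i) (pt x) +
        ∑ v ∈ S, Real.log (Ideal.absNorm v.asIdeal : ℝ) +
        ∑ v ∈ S', Real.log (Ideal.absNorm v.asIdeal : ℝ) + finrank ℚ k * Real.log m) := by
    have a1 := sum_union_le (fM.toFinset ∪ fS.toFinset ∪ fS'.toFinset) Tm
      (fun v => Real.log (Ideal.absNorm v.asIdeal : ℝ)) logn_nonneg
    have a2 := sum_union_le (fM.toFinset ∪ fS.toFinset) fS'.toFinset
      (fun v => Real.log (Ideal.absNorm v.asIdeal : ℝ)) logn_nonneg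
    have a3 := sum_union_le fM.toFinset fS.toFinset
      (fun v => Real.log (Ideal.absNorm v.asIdeal : ℝ)) logn_nonneg
    have b1 : ∑ v ∈ fM.toFinset, Real.log (Ideal.absNorm v.asIdeal : ℝ) =
        finrank k L * truncated S (e + (n + 1)) (F * ∏ i, X i) (pt x) := by
      unfold truncated
      rw [finsum_mem_eq_finite_toFinset_sum _ fM]
      field_simp
    have b2 := (hABV k L S).2
    rw [finsum_mem_eq_finite_toFinset_sum _ fS] at b2
    have b3 := (hABV k L S').2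
    rw [finsum_mem_eq_finite_toFinset_sum _ fS'] at b3
    rw [hQL] at hTm2
    nlinarith
  have hlogN : Real.log (finrank L L' : ℝ) ≤ Real.log B :=
    Real.log_le_log hLL' (by exact_mod_cast hN)
  have htr : truncated S (m * e) (expand m F) (pt y) = (∑ P ∈ fW.toFinset,
      Real.log (Ideal.absNorm P.asIdeal : ℝ)) / finrank k L' := by
    unfold truncated
    rw [finsum_mem_eq_finite_toFinset_sum _ fW]
  rw [htr] at hmain
  have hkey : (∑ P ∈ fW.toFinset, Real.log (Ideal.absNorm P.asIdeal : ℝ)) / finrank k L' +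
      Real.log (Ideal.absNorm (differentIdeal (𝓞 L) (𝓞 L')) : ℝ) / finrank k L' ≤
      truncated S (e + (n + 1)) (F * ∏ i, X i) (pt x) +
        ∑ v ∈ S, Real.log (Ideal.absNorm v.asIdeal : ℝ) +
        ∑ v ∈ S', Real.log (Ideal.absNorm v.asIdeal : ℝ) + finrank ℚ k * Real.log m +
        finrank ℚ k * Real.log B := by
    rw [← add_div, div_le_iff₀ (by rw [htow]; positivity), htow]
    refine le_trans hser ?_
    rw [hQL]
    have hQk : (0 : ℝ) ≤ finrank ℚ k := by positivity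
    have c1 : (finrank ℚ k : ℝ) * finrank k L * Real.log (finrank L L' : ℝ) ≤
        finrank ℚ k * finrank k L * Real.log B :=
      mul_le_mul_of_nonneg_left hlogN (by positivity)
    have c2 : ∑ v ∈ fM.toFinset ∪ fS.toFinset ∪ fS'.toFinset ∪ Tm,
        Real.log (Ideal.absNorm v.asIdeal : ℝ) +
        finrank ℚ k * finrank k L * Real.log (finrank L L' : ℝ) ≤
        finrank k L * (truncated S (e + (n + 1)) (F * ∏ i, X i) (pt x) +
        ∑ v ∈ S, Real.log (Ideal.absNorm v.asIdeal : ℝ) +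
        ∑ v ∈ S', Real.log (Ideal.absNorm v.asIdeal : ℝ) + finrank ℚ k * Real.log m +
        finrank ℚ k * Real.log B) := by nlinarith
    calc _ ≤ (finrank L L' : ℝ) * _ := mul_le_mul_of_nonneg_left c2 hLL'.le
      _ = _ := by ring
  have h2 := sub_add hFIN S e (n + 1) F (∏ i, X i) (pt x) hFx0 hprod
  have h3 := hHYP k L n S x hx0
  push_cast at hmain
  have e1 : ((m : ℝ) * e - A * m) * height k (pt y) = (e - A) * height k (pt x) := by
    rw [hh]; ring
  rw [e1] at hmain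
  have e2 : ((e : ℝ) - (n + 1 + A)) * height k (pt x) =
      (e - A) * height k (pt x) - (n + 1) * height k (pt x) := by ring
  rw [e2]
  linarith

/-- linear changes of the coordinates -/
theorem lintX (hLHT : S_LHT) (hLTR : S_LTR) (k : Type) [Field k] [NumberField k] {n s : ℕ}
    (f : Fin s → MvPolynomial (Fin (n + 1)) k) (F : MvPolynomial (Fin (n + 1)) k) (e : ℕ) (A : ℝ)
    (r : ℕ) (g : Matrix (Fin (n + 1)) (Fin (n + 1)) k) (hg : IsUnit g.det) (hF : F.IsHomogeneous e)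
    (hH : HoldsTX k (fun i => lin g (f i)) (lin g F) e A r) : HoldsTX k f F e A r := by
  obtain ⟨G, N, hG0, hGN, hG⟩ := hH
  have hgi : g * g⁻¹ = 1 := Matrix.mul_nonsing_inv g hg
  have hig : g⁻¹ * g = 1 := Matrix.nonsing_inv_mul g hg
  refine ⟨lin g⁻¹ G, N, LINX.nzd_lin g g⁻¹ hgi hig f G hG0, LINH.lin_hom _ _ _ hGN, fun S => ?_⟩
  obtain ⟨c, hc⟩ := hG S
  obtain ⟨c1, hc1⟩ := hLHT k n g hg
  obtain ⟨c2, hc2⟩ := hLTR k n F e g hg hF
  refine ⟨c + |e - A| * c1 + c2, fun L _ _ _ x hx hfx hr hGx hFx => ?_⟩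
  set y : Fin (n + 1) → L := fun i => ∑ j, algebraMap k L (g⁻¹ i j) * x j with hy
  have hgy : (fun i => ∑ j, algebraMap k L (g i j) * y j) = x := by
    funext i
    exact LINH.mul_inv_apply g g⁻¹ hgi x i
  have hy0 : y ≠ 0 := by
    intro h
    apply hx
    rw [← hgy, h]
    funext i
    simp
  rw [LINH.aeval_lin] at hGx
  have h1 := hc L y hy0 (fun i => by rw [LINH.aeval_lin, hgy]; exact hfx i) hr hGx
    (by rw [LINH.aeval_lin, hgy]; exact hFx)
  have h2 := hc1 L y hy0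
  have h3 := hc2 S L y hy0 (by rw [LINH.aeval_lin, hgy]; exact hFx)
  rw [hgy] at h2 h3
  have h4 : (e - A) * (height k x - height k y) ≤ |e - A| * c1 := by
    calc (e - A) * (height k x - height k y) ≤ |(e - A) * (height k x - height k y)| := le_abs_self _
      _ = |e - A| * |height k x - height k y| := abs_mul _ _
      _ ≤ |e - A| * c1 := mul_le_mul_of_nonneg_left h2 (abs_nonneg _)
  linarith

theorem monoX {k : Type} [Field k] [NumberField k] {n s : ℕ}
    {f : Fin s → MvPolynomial (Fin (n + 1)) k} {F : MvPolynomial (Fin (n + 1)) k}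
    {e : ℕ} {A A' : ℝ} {r : ℕ} (h : A ≤ A') (hA : HoldsTX k f F e A r) : HoldsTX k f F e A' r := by
  obtain ⟨G, N, hG0, hGN, hG⟩ := hA
  refine ⟨G, N, hG0, hGN, fun S => ?_⟩
  obtain ⟨c, hc⟩ := hG S
  refine ⟨c, fun L _ _ _ x hx hfx hr hGx hFx => ?_⟩
  have := hc L x hx hfx hr hGx hFx
  have h0 := height_nonneg (k := k) x
  nlinarith

/-- Vojta's truncated inequality for all smooth complete intersections and hypersurface sections with
strict normal crossings, and the weak forms. -/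
theorem equivX (hSER : S_SER2) (hTRU : S_TRU) (hFIN : S_FIN) (hABV : S_ABV) (hTST : S_TST)
    (hHYP : S_HYP)
    (hPOW : ∀ (k L : Type) [Field k] [NumberField k] [Field L] [NumberField L] [Algebra k L]
      (M m : ℕ) (y : Fin M → L), 1 ≤ m → 1 ≤ M → height k (fun i => y i ^ m) = m * height k y)
    (hHT : S_HT) (hUNR : S_UNR) (hKUM : S_KUM) (hDIV : S_DIV) (hDISC : S_DISC)
    (hPUSHX : S_PUSHX) (hPULLX : S_PULLX) (hNCX : S_NCX) (hNCY : S_NCY) (hBERX : S_BERX)
    (hLHT : S_LHT) (hLTR : S_LTR) (k : Type) [Field k] [NumberField k] (n s : ℕ) :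
    ((∀ (f : Fin s → MvPolynomial (Fin (n + 1)) k) (d : Fin s → ℕ)
        (F : MvPolynomial (Fin (n + 1)) k) (e : ℕ), (∀ i, (f i).IsHomogeneous (d i)) →
        F.IsHomogeneous e → 1 ≤ e + ∑ i, d i → IsSNCPair f F →
        ∀ ε : ℝ, 0 < ε → ∀ r : ℕ, HoldsTX k f F e (n + 1 - ∑ i, (d i : ℝ) + ε) r) ↔
      ∃ A : ℝ, ∀ (f : Fin s → MvPolynomial (Fin (n + 1)) k) (d : Fin s → ℕ)
        (F : MvPolynomial (Fin (n + 1)) k) (e : ℕ), (∀ i, (f i).IsHomogeneous (d i)) →
        F.IsHomogeneous e → 1 ≤ e + ∑ i, d i → IsSNCPair f F →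
        ∀ r : ℕ, HoldsTX k f F e (A - ∑ i, (d i : ℝ)) r) ∧
    ((∀ (f : Fin s → MvPolynomial (Fin (n + 1)) k) (d : Fin s → ℕ)
        (F : MvPolynomial (Fin (n + 1)) k) (e : ℕ), (∀ i, (f i).IsHomogeneous (d i)) →
        F.IsHomogeneous e → 1 ≤ e + ∑ i, d i → IsSNCPair f F →
        ∀ ε : ℝ, 0 < ε → ∀ r : ℕ, HoldsTX k f F e (n + 1 - ∑ i, (d i : ℝ) + ε) r) ↔
      ∀ δ : ℝ, 0 < δ → ∃ e₀ : ℕ, ∀ (f : Fin s → MvPolynomial (Fin (n + 1)) k)
        (d : Fin s → ℕ) (F : MvPolynomial (Fin (n + 1)) k) (e : ℕ),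
        (∀ i, (f i).IsHomogeneous (d i)) → F.IsHomogeneous e → 1 ≤ e + ∑ i, d i →
        e₀ ≤ e + ∑ i, d i → IsSNCPair f F →
        ∀ r : ℕ, HoldsTX k f F e (δ * (e + ∑ i, (d i : ℝ)) - ∑ i, (d i : ℝ)) r) := by
  set P1 : Prop := ∀ (f : Fin s → MvPolynomial (Fin (n + 1)) k) (d : Fin s → ℕ)
        (F : MvPolynomial (Fin (n + 1)) k) (e : ℕ), (∀ i, (f i).IsHomogeneous (d i)) →
        F.IsHomogeneous e → 1 ≤ e + ∑ i, d i → IsSNCPair f F →
        ∀ ε : ℝ, 0 < ε → ∀ r : ℕ, HoldsTX k f F e (n + 1 - ∑ i, (d i : ℝ) + ε) r with hP1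
  set P2 : Prop := ∃ A : ℝ, ∀ (f : Fin s → MvPolynomial (Fin (n + 1)) k) (d : Fin s → ℕ)
        (F : MvPolynomial (Fin (n + 1)) k) (e : ℕ), (∀ i, (f i).IsHomogeneous (d i)) →
        F.IsHomogeneous e → 1 ≤ e + ∑ i, d i → IsSNCPair f F →
        ∀ r : ℕ, HoldsTX k f F e (A - ∑ i, (d i : ℝ)) r with hP2
  set P3 : Prop := ∀ δ : ℝ, 0 < δ → ∃ e₀ : ℕ, ∀ (f : Fin s → MvPolynomial (Fin (n + 1)) k)
        (d : Fin s → ℕ) (F : MvPolynomial (Fin (n + 1)) k) (e : ℕ),
        (∀ i, (f i).IsHomogeneous (d i)) → F.IsHomogeneous e → 1 ≤ e + ∑ i, d i →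
        e₀ ≤ e + ∑ i, d i → IsSNCPair f F →
        ∀ r : ℕ, HoldsTX k f F e (δ * (e + ∑ i, (d i : ℝ)) - ∑ i, (d i : ℝ)) r with hP3
  have ab : P1 → P2 := by
    intro h
    refine ⟨n + 1 + 1, fun f d F e hf hF he hT r => ?_⟩
    have h1 := h f d F e hf hF he hT 1 one_pos r
    have e1 : (n : ℝ) + 1 - ∑ i, (d i : ℝ) + 1 = n + 1 + 1 - ∑ i, (d i : ℝ) := by ring
    rw [e1] at h1
    exact h1
  have bc : P2 → P3 := by
    rintro ⟨A, hA⟩ δ hδ
    refine ⟨⌈A / δ⌉₊, fun f d F e hf hF he he0 hT r => monoX ?_ (hA f d F e hf hF he hT r)⟩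
    have h1 : A / δ ≤ ((e + ∑ i, d i : ℕ) : ℝ) :=
      le_trans (Nat.le_ceil _) (by exact_mod_cast he0)
    rw [div_le_iff₀ hδ] at h1
    push_cast at h1
    linarith
  have ca : P3 → P1 := by
    intro h f d F e hf hF he hT ε hε r
    have he' : (0 : ℝ) < e + ∑ i, (d i : ℝ) := by
      have : (1 : ℝ) ≤ ((e + ∑ i, d i : ℕ) : ℝ) := by exact_mod_cast he
      push_cast at this
      linarith
    obtain ⟨g, hg, hgT⟩ := hBERX k n s f F hT
    have hgF := LINH.lin_hom g F e hF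
    have hgf : ∀ i, (lin g (f i)).IsHomogeneous (d i) := fun i => LINH.lin_hom g (f i) _ (hf i)
    set t : ℝ := e + ∑ i, (d i : ℝ) with ht
    obtain ⟨e₀, h₀⟩ := h (ε / t) (div_pos hε he')
    have hm : 1 ≤ max 1 e₀ := le_max_left _ _
    have hpull : ∀ l, NZD (fun i => expand (max 1 e₀) (lin g (f i))) (X l) := fun l =>
      hPULLX k n s (max 1 e₀) (fun i => lin g (f i)) l hm (hgT.1 l)
    have hnc := hNCY k n s _ _ (hNCX k n s (max 1 e₀) (fun i => lin g (f i)) (lin g F) hm hpull hgT)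
    have hdeg : max 1 e₀ * e + ∑ i, max 1 e₀ * d i = max 1 e₀ * (e + ∑ i, d i) := by
      rw [mul_add, Finset.mul_sum]
    have h1 := liftX hSER hTRU hFIN hABV hTST hHYP hPOW hHT hUNR hKUM hDIV hDISC hPUSHX k
      (fun i => lin g (f i)) d hgf hgT.1 (lin g F) e (max 1 e₀) hgF hm
      (ε / t * t - ∑ i, (d i : ℝ)) r (fun r' => by
        have h2 := h₀ (fun i => expand (max 1 e₀) (lin g (f i))) (fun i => max 1 e₀ * d i)
          (expand (max 1 e₀) (lin g F)) (max 1 e₀ * e)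
          (fun i => expand_hom _ _ _ (hgf i)) (expand_hom _ _ _ hgF)
          (by rw [hdeg]; exact Nat.one_le_iff_ne_zero.mpr (by positivity))
          (by rw [hdeg]; exact le_trans (le_max_right 1 e₀) (Nat.le_mul_of_pos_right _ he)) hnc r'
        have e3 : ε / t * (((max 1 e₀ * e : ℕ) : ℝ) + ∑ i, ((max 1 e₀ * d i : ℕ) : ℝ)) -
            ∑ i, ((max 1 e₀ * d i : ℕ) : ℝ) =
            (ε / t * t - ∑ i, (d i : ℝ)) * (max 1 e₀ : ℕ) := by
          have e4 : ∑ i, ((max 1 e₀ * d i : ℕ) : ℝ) = ((max 1 e₀ : ℕ) : ℝ) * ∑ i, (d i : ℝ) := by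
            rw [Finset.mul_sum]
            exact Finset.sum_congr rfl fun i _ => Nat.cast_mul _ _
          rw [e4, ht, Nat.cast_mul]
          ring
        rw [e3] at h2
        exact h2)
    have e1 : (n : ℝ) + 1 + (ε / t * t - ∑ i, (d i : ℝ)) = n + 1 - ∑ i, (d i : ℝ) + ε := by
      rw [div_mul_cancel₀ _ he'.ne']
      ring
    rw [e1] at h1
    exact lintX hLHT hLTR k f F e _ r g hg hF h1
  exact ⟨⟨ab, fun h => ca (bc h)⟩, ⟨fun h => bc (ab h), ca⟩⟩

end Pool.Agent.J4.H2.VT
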