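import Pool.Agent.J4.H2.VT.Fin
import Pool.Agent.J4.H2.VT.Defs4
import Pool.Agent.J4.H5.VJ.Main3
import Pool.Agent.J4.H5.VJ.T_LINX

/-!
# Vojta's truncated inequality for all smooth projective varieties
-/

set_option autoImplicit false

open MvPolynomial NumberField IsDedekindDomain Module

namespace Pool.Agent.J4.H2.VT

open Pool.Agent.J4.H5.VJ

theorem finI (hFIN : S_FIN) {k L : Type} [Field k] [NumberField k] [Field L] [NumberField L]
    [Algebra k L] {M u : ℕ} (S : Finset (HeightOneSpectrum (𝓞 k))) (e : ℕ)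
    (G : Fin u → MvPolynomial (Fin M) k) (x : Fin M → L) (hG : ∃ i, aeval x (G i) ≠ 0) :
    (meetsI S e G x).Finite := by
  obtain ⟨i, hi⟩ := hG
  refine (hFIN k L M S e (G i) x hi).subset ?_
  rintro w ⟨hw, j, hj⟩
  exact ⟨hw, j, hj i⟩

theorem truncatedI_smul {k L : Type} [Field k] [NumberField k] [Field L] [NumberField L]
    [Algebra k L] {M u : ℕ} (S : Finset (HeightOneSpectrum (𝓞 k))) {e : ℕ}
    {G : Fin u → MvPolynomial (Fin M) k} (hG : ∀ i, (G i).IsHomogeneous e) {c : L} (hc : c ≠ 0)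
    (x : Fin M → L) : truncatedI S e G (c • x) = truncatedI S e G x := by
  have h : meetsI S e G (c • x) = meetsI S e G x := by
    ext w
    have h1 : 0 < w.valuation L c ^ e :=
      zero_lt_iff.2 (pow_ne_zero _ ((Valuation.ne_zero_iff _).2 hc))
    unfold meetsI
    simp only [Set.mem_ofPred_eq, Pi.smul_apply, smul_eq_mul, map_mul, mul_pow]
    refine and_congr_right fun _ => exists_congr fun j => forall_congr' fun i => ?_
    rw [Hom.aeval_smul (hG i), map_mul, map_pow]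
    exact mul_lt_mul_iff_right₀ h1
  unfold truncatedI
  rw [h]

theorem heightD_smul (k : Type) {L : Type} [Field k] [Field L] [NumberField L] [Algebra k L]
    {M u : ℕ} {e : ℕ} {G : Fin u → MvPolynomial (Fin M) k} (hG : ∀ i, (G i).IsHomogeneous e)
    {c : L} (hc : c ≠ 0) (x : Fin M → L) : heightD k e G (c • x) = heightD k e G x := by
  unfold heightD
  rw [Hom.height_smul k hc]
  have h : (fun i => aeval (c • x) (G i)) = c ^ e • fun i => aeval x (G i) := by
    funext i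
    rw [Hom.aeval_smul (hG i)]
    rfl
  rw [h, Hom.height_smul k (pow_ne_zero _ hc)]

/-- The descent from the pull back under the power map. -/
theorem descTV (hSER : S_SER2) (hTRUI : S_TRUI) (hFIN : S_FIN)
    (hPOW : ∀ (k L : Type) [Field k] [NumberField k] [Field L] [NumberField L] [Algebra k L]
      (M m : ℕ) (y : Fin M → L), 1 ≤ m → 1 ≤ M → height k (fun i => y i ^ m) = m * height k y)
    (hHT : S_HT) (hUNR : S_UNR) (hKUM : S_KUM) (hCNT : S_CNT) (hDIV : S_DIV) (hDISC : S_DISC)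
    (hPUSHX : S_PUSHX) (hROWS : S_ROWS) (hNSX : S_NSX) (hROWM : S_ROWM)
    (k : Type) [Field k] [NumberField k] {n t u s : ℕ} (f : Fin t → MvPolynomial (Fin (n + 1)) k)
    (d : Fin t → ℕ) (hf : ∀ i, (f i).IsHomogeneous (d i))
    (G : Fin u → MvPolynomial (Fin (n + 1)) k) (e m : ℕ) (hGe : ∀ i, (G i).IsHomogeneous e)
    (hT : IsTransV s f G) (hm : 1 ≤ m) (A : ℝ) (r : ℕ)
    (hH : ∀ r', HoldsTV k s (fun i => expand m (f i)) (fun i => expand m (G i)) (m * e) A r') :
    HoldsTV k s f G e ((A + (n + 1)) / m) r := by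
  classical
  obtain ⟨B, hB⟩ := hKUM n m hm
  obtain ⟨P₁, N₁, hP₁, hN₁, hS⟩ := hH (r * B)
  obtain ⟨P₂, N₂, hP₂, hN₂, hP₂'⟩ := hPUSHX k n t m f P₁ N₁ hm hP₁ hN₁
  obtain ⟨c₁, hc₁⟩ := hNSX k n t u s f G d hf hT
  refine ⟨P₂ * ∏ i, X i, N₂ + ∑ i : Fin (n + 1), 1, nzd_mul hP₂ (nzd_prod _ _ hT.1),
    hN₂.mul (IsHomogeneous.prod _ _ _ fun i _ => isHomogeneous_X k i), fun S => ?_⟩
  obtain ⟨c, hc⟩ := hS S
  refine ⟨c + c₁ + finrank ℚ k * Real.log m + finrank ℚ k * Real.log B, ?_⟩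
  intro L _ _ _ x₀ hxne hfx₀ hr hGx hFx₀ α hα₀
  rw [map_mul, map_prod, mul_ne_zero_iff, Finset.prod_ne_zero_iff] at hGx
  obtain ⟨hx, hx1⟩ := hGx
  have hx00 : ∀ i, x₀ i ≠ 0 := fun i => by simpa using hx1 i (Finset.mem_univ i)
  obtain ⟨c₀, hc₀, x, rfl⟩ := Hom.exists_pt x₀ (hx00 0)
  rw [truncatedI_smul S hGe hc₀, heightD_smul k hGe hc₀, Hom.height_smul k hc₀]
  have hx0 : ∀ i, x i ≠ 0 := by
    intro i h0
    apply hx00 i.succ
    simp [pt, h0]
  have hfx : ∀ i, aeval (pt x) (f i) = 0 := by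
    intro i
    have := hfx₀ i
    rw [Hom.aeval_smul (hf i)] at this
    exact (mul_eq_zero.1 this).resolve_left (pow_ne_zero _ hc₀)
  rw [Hom.aeval_smul hN₂] at hx
  replace hx := (mul_ne_zero_iff.1 hx).2
  have hFx0 : ∃ i, aeval (pt x) (G i) ≠ 0 := by
    obtain ⟨i, hi⟩ := hFx₀
    rw [Hom.aeval_smul (hGe i)] at hi
    exact ⟨i, (mul_ne_zero_iff.1 hi).2⟩
  obtain ⟨L', i1, i2, i3, i4, y, Θ, hN, hy, hΘ, hΘ'⟩ := hB L x hx0
  letI : Algebra k L' := ((algebraMap L L').comp (algebraMap k L)).toAlgebra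
  haveI : IsScalarTower k L L' := IsScalarTower.of_algebraMap_eq (fun _ => rfl)
  obtain ⟨r1, r2, r3, r4⟩ := hROWS k L L' n t s f d α (pt x) c₀ hf hc₀
  rw [r1]
  have hα : gaussRow f α (pt x) ≠ 0 := r2.1 hα₀
  have hpy : ∀ i, pt y i ^ m = algebraMap L L' (pt x i) := by
    intro i
    refine Fin.cases ?_ (fun j => ?_) i
    · simp [pt]
    · simp [pt, hy]
  have hpyf : (fun i => pt y i ^ m) = fun i => algebraMap L L' (pt x i) := funext hpy
  have hpt0 : ∀ l, pt y l ≠ 0 := by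
    intro l h
    have h1 := hpy l
    rw [h, zero_pow (by omega)] at h1
    have h2 := (map_eq_zero (algebraMap L L')).1 h1.symm
    revert h2
    refine Fin.cases ?_ (fun j => ?_) l
    · simp [pt]
    · simpa [pt] using hx0 j
  have hkL : 0 < (finrank k L : ℝ) := by exact_mod_cast finrank_pos
  have hLL' : 0 < (finrank L L' : ℝ) := by exact_mod_cast finrank_pos
  have hmR : (0 : ℝ) < m := by exact_mod_cast hm
  have htow := fin_tower k L L'
  have hQL : (finrank ℚ L : ℝ) = finrank ℚ k * finrank k L := by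
    have := finrank_mul_finrank ℚ k L
    exact_mod_cast this.symm
  have hexp : ∀ Q : MvPolynomial (Fin (n + 1)) k,
      aeval (pt y) (expand m Q) = algebraMap L L' (aeval (pt x) Q) := by
    intro Q
    rw [aeval_expand', hpyf, aeval_ext]
  have hexp0 : ∃ i, aeval (pt y) (expand m (G i)) ≠ 0 := by
    obtain ⟨i, hi⟩ := hFx0
    refine ⟨i, ?_⟩
    rw [hexp]
    exact (map_ne_zero (algebraMap L L')).mpr hi
  -- the Gauss map
  have hαy : gaussRow f α (fun i => pt y i ^ m) ≠ 0 := by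
    rw [hpyf]; exact r4.2 hα
  obtain ⟨q1, q2⟩ := hROWM k L' n t s m f α (pt y) hm hpt0
  have hns := hc₁ L' (fun i => pt y i ^ m) (by
      intro h
      have h1 := congrFun h 0
      exact pow_ne_zero m (hpt0 0) h1) (by
      intro i
      rw [hpyf, aeval_ext, hfx i, map_zero]) α hαy
  have hh : height k (pt x) = m * height k (pt y) := by
    rw [← hPOW k L' (n + 1) m (pt y) hm (by omega), hpyf, hHT k L L' (n + 1) (pt x)]
  have hh2 : height k (fun i => pt y i ^ m) = height k (pt x) := by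
    rw [hpyf, hHT k L L' (n + 1) (pt x)]
  have hgx : heightI k (gaussRow f α (fun i => pt y i ^ m)) = heightI k (gaussRow f α (pt x)) := by
    rw [hpyf, r3]
  rw [hh2, hgx] at hns
  have hmain := hc L' (pt y) (pt_ne_zero y) (by
      intro i
      rw [hexp, hfx i, map_zero]) (by
      have : finrank k L' = finrank k L * finrank L L' := (finrank_mul_finrank k L L').symm
      rw [this]
      exact Nat.mul_le_mul hr hN) (by
      intro h
      apply hx
      have h2 := hP₂' L' (pt y) h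
      rw [hpyf, aeval_ext] at h2
      exact (map_eq_zero (algebraMap L L')).mp h2) hexp0 α (q1.2 hαy)
  have hD : heightD k (m * e) (fun i => expand m (G i)) (pt y) = heightD k e G (pt x) := by
    unfold heightD
    have h1 : (fun i => aeval (pt y) (expand m (G i))) =
        fun i => algebraMap L L' (aeval (pt x) (G i)) := funext fun i => hexp (G i)
    rw [h1, hHT k L L' u (fun i => aeval (pt x) (G i)), hh]
    push_cast
    ring
  rw [hD, hDISC k L L'] at hmain
  -- the sets of primes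
  have fM := finI hFIN S e G (pt x) hFx0
  have fW := finI hFIN S (m * e) (fun i => expand m (G i)) (pt y) hexp0
  obtain ⟨T₁, hT₁, hT₁s⟩ := hCNT n L x hx0
  obtain ⟨Tm, hTm1, hTm2⟩ := hDIV m hm L
  have hser := hSER L L' (fM.toFinset ∪ T₁ ∪ Tm) fW.toFinset
    (by
      intro P hP
      rw [Set.Finite.mem_toFinset] at hP
      obtain ⟨v, hv, hPv⟩ := hTRUI k L L' (n + 1) u S e m G (pt x) (pt y) hpy P hP
      refine ⟨v, ?_, hPv⟩
      simp only [Finset.mem_union, Set.Finite.mem_toFinset]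
      exact Or.inl (Or.inl hv))
    (by
      intro P hP
      have hlo : ∃ v : HeightOneSpectrum (𝓞 L), P.asIdeal.LiesOver v.asIdeal :=
        ⟨P.under (𝓞 L), ⟨rfl⟩⟩
      obtain ⟨v, hPv⟩ := hlo
      refine ⟨v, ?_, hPv⟩
      by_contra hcon
      simp only [Finset.mem_union, Set.Finite.mem_toFinset, not_or] at hcon
      refine hUNR L L' m Θ hm hΘ P v hPv (hTm1 v hcon.2) ?_ hP
      intro θ hθ
      rcases hΘ' θ hθ with h | ⟨i, h⟩
      · exact ⟨1, map_one _, by rw [h, map_one]⟩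
      · exact ⟨x i, hT₁ v hcon.1.2 i, h⟩)
  have hsumT : ∑ v ∈ fM.toFinset ∪ T₁ ∪ Tm, Real.log (Ideal.absNorm v.asIdeal : ℝ) ≤
      finrank k L * (truncatedI S e G (pt x) + (n + 1) * height k (pt x) +
        finrank ℚ k * Real.log m) := by
    have a1 := sum_union_le (fM.toFinset ∪ T₁) Tm
      (fun v => Real.log (Ideal.absNorm v.asIdeal : ℝ)) logn_nonneg
    have a2 := sum_union_le fM.toFinset T₁
      (fun v => Real.log (Ideal.absNorm v.asIdeal : ℝ)) logn_nonneg
    have b1 : ∑ v ∈ fM.toFinset, Real.log (Ideal.absNorm v.asIdeal : ℝ) =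
        finrank k L * truncatedI S e G (pt x) := by
      unfold truncatedI
      rw [finsum_mem_eq_finite_toFinset_sum _ fM]
      field_simp
    have b2 : Height.logHeight (pt x) = finrank k L * height k (pt x) := by
      unfold height
      field_simp
    rw [b2] at hT₁s
    rw [hQL] at hTm2
    nlinarith
  have hlogN : Real.log (finrank L L' : ℝ) ≤ Real.log B :=
    Real.log_le_log hLL' (by exact_mod_cast hN)
  have htr : truncatedI S (m * e) (fun i => expand m (G i)) (pt y) = (∑ P ∈ fW.toFinset,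
      Real.log (Ideal.absNorm P.asIdeal : ℝ)) / finrank k L' := by
    unfold truncatedI
    rw [finsum_mem_eq_finite_toFinset_sum _ fW]
  rw [htr] at hmain
  have hkey : (∑ P ∈ fW.toFinset, Real.log (Ideal.absNorm P.asIdeal : ℝ)) / finrank k L' +
      Real.log (Ideal.absNorm (differentIdeal (𝓞 L) (𝓞 L')) : ℝ) / finrank k L' ≤
      truncatedI S e G (pt x) + (n + 1) * height k (pt x) + finrank ℚ k * Real.log m +
        finrank ℚ k * Real.log B := by
    rw [← add_div, div_le_iff₀ (by rw [htow]; positivity), htow]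
    refine le_trans hser ?_
    rw [hQL]
    have hQk : (0 : ℝ) ≤ finrank ℚ k := by positivity
    have c1 : (finrank ℚ k : ℝ) * finrank k L * Real.log (finrank L L' : ℝ) ≤
        finrank ℚ k * finrank k L * Real.log B :=
      mul_le_mul_of_nonneg_left hlogN (by positivity)
    have c2 : ∑ v ∈ fM.toFinset ∪ T₁ ∪ Tm, Real.log (Ideal.absNorm v.asIdeal : ℝ) +
        finrank ℚ k * finrank k L * Real.log (finrank L L' : ℝ) ≤
        finrank k L * (truncatedI S e G (pt x) + (n + 1) * height k (pt x) +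
          finrank ℚ k * Real.log m + finrank ℚ k * Real.log B) := by nlinarith
    calc _ ≤ (finrank L L' : ℝ) * _ := mul_le_mul_of_nonneg_left c2 hLL'.le
      _ = _ := by ring
  have hxm : height k (pt y) = height k (pt x) / m := by
    rw [hh]; field_simp
  rw [hxm] at hmain q2
  have e1 : (A + (n + 1)) / m * height k (pt x) =
      A * (height k (pt x) / m) + (n + 1) * (height k (pt x) / m) := by ring
  rw [e1]
  nlinarith

/-- linear changes of the coordinates -/
theorem linTV (hLHT : S_LHT) (hLTRI : S_LTRI) (hGLIN : S_GLIN) (k : Type) [Field k] [NumberField k]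
    {n t u s : ℕ} (f : Fin t → MvPolynomial (Fin (n + 1)) k)
    (G : Fin u → MvPolynomial (Fin (n + 1)) k) (e : ℕ) (A : ℝ)
    (r : ℕ) (g : Matrix (Fin (n + 1)) (Fin (n + 1)) k) (hg : IsUnit g.det)
    (hG : ∀ i, (G i).IsHomogeneous e)
    (hH : HoldsTV k s (fun i => lin g (f i)) (fun i => lin g (G i)) e A r) :
    HoldsTV k s f G e A r := by
  obtain ⟨P, N, hP0, hPN, hP⟩ := hH
  have hgi : g * g⁻¹ = 1 := Matrix.mul_nonsing_inv g hg
  have hig : g⁻¹ * g = 1 := Matrix.nonsing_inv_mul g hg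
  refine ⟨lin g⁻¹ P, N, LINX.nzd_lin g g⁻¹ hgi hig f P hP0, LINH.lin_hom _ _ _ hPN, fun S => ?_⟩
  obtain ⟨c, hc⟩ := hP S
  obtain ⟨c1, hc1⟩ := hLHT k n g hg
  obtain ⟨c2, hc2⟩ := hLTRI k n u G e g hg hG
  obtain ⟨c3, hc3⟩ := hGLIN k n t s f g hg
  refine ⟨c + |e - (n - s + 1) - A| * c1 + c2 + c3, fun L _ _ _ x hx hfx hr hPx hGx α hα => ?_⟩
  set y : Fin (n + 1) → L := fun i => ∑ j, algebraMap k L (g⁻¹ i j) * x j with hy
  have hgy : (fun i => ∑ j, algebraMap k L (g i j) * y j) = x := by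
    funext i
    exact LINH.mul_inv_apply g g⁻¹ hgi x i
  have hy0 : y ≠ 0 := by
    intro h
    apply hx
    rw [← hgy, h]
    funext i
    simp
  have hev : ∀ Q : MvPolynomial (Fin (n + 1)) k, aeval y (lin g Q) = aeval x Q := by
    intro Q
    rw [LINH.aeval_lin, hgy]
  rw [LINH.aeval_lin] at hPx
  have hGy : ∃ i, aeval y (lin g (G i)) ≠ 0 := by
    obtain ⟨i, hi⟩ := hGx
    exact ⟨i, by rw [hev]; exact hi⟩
  have h5 := hc3 L y α (by rw [hgy]; exact hα)
  rw [hgy] at h5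
  have h1 := hc L y hy0 (fun i => by rw [hev]; exact hfx i) hr hPx hGy α h5.1
  have h2 := hc1 L y hy0
  have h3 := hc2 S L y hy0 hGy
  rw [hgy] at h2 h3
  have h6 : heightD k e (fun i => lin g (G i)) y =
      heightD k e G x - e * (height k x - height k y) := by
    unfold heightD
    have : (fun i => aeval y (lin g (G i))) = fun i => aeval x (G i) := funext fun i => hev (G i)
    rw [this]
    ring
  rw [h6] at h1
  have h4 : (e - (n - s + 1) - A) * (height k x - height k y) ≤ |e - (n - s + 1) - A| * c1 := by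
    calc (e - (n - s + 1) - A) * (height k x - height k y)
        ≤ |(e - (n - s + 1) - A) * (height k x - height k y)| := le_abs_self _
      _ = |e - (n - s + 1) - A| * |height k x - height k y| := abs_mul _ _
      _ ≤ |e - (n - s + 1) - A| * c1 := mul_le_mul_of_nonneg_left h2 (abs_nonneg _)
  nlinarith [h5.2]

theorem monoV {k : Type} [Field k] [NumberField k] {n t u s : ℕ}
    {f : Fin t → MvPolynomial (Fin (n + 1)) k} {G : Fin u → MvPolynomial (Fin (n + 1)) k}
    {e : ℕ} {A A' : ℝ} {r : ℕ} (h : A ≤ A') (hA : HoldsTV k s f G e A r) :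
    HoldsTV k s f G e A' r := by
  obtain ⟨P, N, hP0, hPN, hP⟩ := hA
  refine ⟨P, N, hP0, hPN, fun S => ?_⟩
  obtain ⟨c, hc⟩ := hP S
  refine ⟨c, fun L _ _ _ x hx hfx hr hPx hGx α hα => ?_⟩
  have := hc L x hx hfx hr hPx hGx α hα
  have h0 := height_nonneg (k := k) x
  nlinarith

/-- Vojta's truncated inequality for all smooth projective varieties and divisors with strict normal
crossings, and the weak forms. -/
theorem equivV (hSER : S_SER2) (hTRUI : S_TRUI) (hFIN : S_FIN)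
    (hPOW : ∀ (k L : Type) [Field k] [NumberField k] [Field L] [NumberField L] [Algebra k L]
      (M m : ℕ) (y : Fin M → L), 1 ≤ m → 1 ≤ M → height k (fun i => y i ^ m) = m * height k y)
    (hHT : S_HT) (hUNR : S_UNR) (hKUM : S_KUM) (hCNT : S_CNT) (hDIV : S_DIV) (hDISC : S_DISC)
    (hPUSHX : S_PUSHX) (hROWS : S_ROWS) (hNSX : S_NSX) (hROWM : S_ROWM)
    (hPULLX : S_PULLX) (hNCV : S_NCV) (hNCW : S_NCW) (hBERV : S_BERV)
    (hLHT : S_LHT) (hLTRI : S_LTRI) (hGLIN : S_GLIN)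
    (k : Type) [Field k] [NumberField k] (n s t u : ℕ) :
    ((∀ (f : Fin t → MvPolynomial (Fin (n + 1)) k) (d : Fin t → ℕ)
        (G : Fin u → MvPolynomial (Fin (n + 1)) k) (e : ℕ), (∀ i, (f i).IsHomogeneous (d i)) →
        (∀ i, (G i).IsHomogeneous e) → 1 ≤ e + ∑ i, d i → IsSNCV s f G →
        ∀ ε : ℝ, 0 < ε → ∀ r : ℕ, HoldsTV k s f G e ε r) ↔
      ∃ A : ℝ, ∀ (f : Fin t → MvPolynomial (Fin (n + 1)) k) (d : Fin t → ℕ)
        (G : Fin u → MvPolynomial (Fin (n + 1)) k) (e : ℕ), (∀ i, (f i).IsHomogeneous (d i)) →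
        (∀ i, (G i).IsHomogeneous e) → 1 ≤ e + ∑ i, d i → IsSNCV s f G →
        ∀ r : ℕ, HoldsTV k s f G e A r) ∧
    ((∀ (f : Fin t → MvPolynomial (Fin (n + 1)) k) (d : Fin t → ℕ)
        (G : Fin u → MvPolynomial (Fin (n + 1)) k) (e : ℕ), (∀ i, (f i).IsHomogeneous (d i)) →
        (∀ i, (G i).IsHomogeneous e) → 1 ≤ e + ∑ i, d i → IsSNCV s f G →
        ∀ ε : ℝ, 0 < ε → ∀ r : ℕ, HoldsTV k s f G e ε r) ↔
      ∀ δ : ℝ, 0 < δ → ∃ τ : ℕ, ∀ (f : Fin t → MvPolynomial (Fin (n + 1)) k)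
        (d : Fin t → ℕ) (G : Fin u → MvPolynomial (Fin (n + 1)) k) (e : ℕ),
        (∀ i, (f i).IsHomogeneous (d i)) → (∀ i, (G i).IsHomogeneous e) → 1 ≤ e + ∑ i, d i →
        τ ≤ e + ∑ i, d i → IsSNCV s f G →
        ∀ r : ℕ, HoldsTV k s f G e (δ * (e + ∑ i, (d i : ℝ))) r) := by
  set P1 : Prop := ∀ (f : Fin t → MvPolynomial (Fin (n + 1)) k) (d : Fin t → ℕ)
        (G : Fin u → MvPolynomial (Fin (n + 1)) k) (e : ℕ), (∀ i, (f i).IsHomogeneous (d i)) →
        (∀ i, (G i).IsHomogeneous e) → 1 ≤ e + ∑ i, d i → IsSNCV s f G →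
        ∀ ε : ℝ, 0 < ε → ∀ r : ℕ, HoldsTV k s f G e ε r with hP1
  set P2 : Prop := ∃ A : ℝ, ∀ (f : Fin t → MvPolynomial (Fin (n + 1)) k) (d : Fin t → ℕ)
        (G : Fin u → MvPolynomial (Fin (n + 1)) k) (e : ℕ), (∀ i, (f i).IsHomogeneous (d i)) →
        (∀ i, (G i).IsHomogeneous e) → 1 ≤ e + ∑ i, d i → IsSNCV s f G →
        ∀ r : ℕ, HoldsTV k s f G e A r with hP2
  set P3 : Prop := ∀ δ : ℝ, 0 < δ → ∃ τ : ℕ, ∀ (f : Fin t → MvPolynomial (Fin (n + 1)) k)
        (d : Fin t → ℕ) (G : Fin u → MvPolynomial (Fin (n + 1)) k) (e : ℕ),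
        (∀ i, (f i).IsHomogeneous (d i)) → (∀ i, (G i).IsHomogeneous e) → 1 ≤ e + ∑ i, d i →
        τ ≤ e + ∑ i, d i → IsSNCV s f G →
        ∀ r : ℕ, HoldsTV k s f G e (δ * (e + ∑ i, (d i : ℝ))) r with hP3
  have ab : P1 → P2 := fun h => ⟨1, fun f d G e hf hG he hT r => h f d G e hf hG he hT 1 one_pos r⟩
  have bc : P2 → P3 := by
    rintro ⟨A, hA⟩ δ hδ
    refine ⟨⌈A / δ⌉₊, fun f d G e hf hG he he0 hT r => monoV ?_ (hA f d G e hf hG he hT r)⟩
    have h1 : A / δ ≤ ((e + ∑ i, d i : ℕ) : ℝ) :=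
      le_trans (Nat.le_ceil _) (by exact_mod_cast he0)
    rw [div_le_iff₀ hδ] at h1
    push_cast at h1
    linarith
  have ca : P3 → P1 := by
    intro h f d G e hf hG he hT ε hε r
    have he' : (0 : ℝ) < e + ∑ i, (d i : ℝ) := by
      have : (1 : ℝ) ≤ ((e + ∑ i, d i : ℕ) : ℝ) := by exact_mod_cast he
      push_cast at this
      linarith
    obtain ⟨g, hg, hgT⟩ := hBERV k n t u s f G hT
    have hgG : ∀ i, (lin g (G i)).IsHomogeneous e := fun i => LINH.lin_hom g (G i) e (hG i)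
    have hgf : ∀ i, (lin g (f i)).IsHomogeneous (d i) := fun i => LINH.lin_hom g (f i) _ (hf i)
    set T : ℝ := e + ∑ i, (d i : ℝ) with hTdef
    obtain ⟨τ, h₀⟩ := h (ε / (2 * T)) (by positivity)
    obtain ⟨m₀, hm₀⟩ := exists_nat_gt (2 * ((n : ℝ) + 1) / ε)
    set m : ℕ := max 1 (max τ m₀) with hmdef
    have hm : 1 ≤ m := le_max_left _ _
    have hmτ : τ ≤ m := le_trans (le_max_left _ _) (le_max_right _ _)
    have hmm : (m₀ : ℝ) ≤ m := by
      exact_mod_cast le_trans (le_max_right τ m₀) (le_max_right 1 _)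
    have hmR : (0 : ℝ) < m := by exact_mod_cast hm
    have hpull : ∀ l, NZD (fun i => expand m (lin g (f i))) (X l) := fun l =>
      hPULLX k n t m (fun i => lin g (f i)) l hm (hgT.1 l)
    have hnc := hNCW k n t u s _ _ (hNCV k n t u s m (fun i => lin g (f i)) (fun i => lin g (G i))
      hm hpull hgT)
    have hdeg : m * e + ∑ i, m * d i = m * (e + ∑ i, d i) := by
      rw [mul_add, Finset.mul_sum]
    have h1 := descTV hSER hTRUI hFIN hPOW hHT hUNR hKUM hCNT hDIV hDISC hPUSHX hROWS hNSX hROWM k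
      (fun i => lin g (f i)) d hgf (fun i => lin g (G i)) e m hgG hgT hm
      (ε / (2 * T) * (m * T)) r (fun r' => by
        have h2 := h₀ (fun i => expand m (lin g (f i))) (fun i => m * d i)
          (fun i => expand m (lin g (G i))) (m * e)
          (fun i => expand_hom _ _ _ (hgf i)) (fun i => expand_hom _ _ _ (hgG i))
          (by rw [hdeg]; exact Nat.one_le_iff_ne_zero.mpr (by positivity))
          (by rw [hdeg]; exact le_trans hmτ (Nat.le_mul_of_pos_right _ he)) hnc r'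
        have e3 : ((m * e : ℕ) : ℝ) + ∑ i, ((m * d i : ℕ) : ℝ) = m * T := by
          have e4 : ∑ i, ((m * d i : ℕ) : ℝ) = (m : ℝ) * ∑ i, (d i : ℝ) := by
            rw [Finset.mul_sum]
            exact Finset.sum_congr rfl fun i _ => Nat.cast_mul _ _
          rw [e4, hTdef, Nat.cast_mul]
          ring
        rw [e3] at h2
        exact h2)
    refine linTV hLHT hLTRI hGLIN k f G e ε r g hg hG (monoV ?_ h1)
    have e5 : ε / (2 * T) * (m * T) = ε / 2 * m := by
      field_simp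
    rw [e5, div_le_iff₀ hmR]
    have e6 : 2 * ((n : ℝ) + 1) / ε < m := lt_of_lt_of_le hm₀ hmm
    rw [div_lt_iff₀ hε] at e6
    nlinarith
  exact ⟨⟨ab, fun h => ca (bc h)⟩, ⟨fun h => bc (ab h), ca⟩⟩

end Pool.Agent.J4.H2.VT
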