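import Pool.Agent.J4.H74.VojLM

/-!
# Vojta's conjecture with truncated counting function at the points whose coordinates are values of
multiplicative functions

`K` is a number field of degree `d`, `ω_1, …, ω_d` its integral basis, `n ≥ 1`, and `D = ∏ F_j = 0`
ANY reduced divisor of `ℙⁿ` over `K` (arbitrary singularities and intersections) with components
`F_j = 0` irreducible over `K` of degree `k_j`. A component has weight `m_j = k_j` if it is a
hyperplane or a quadric; weight `m_j` if it is geometrically a union of conjugate hyperplanes whose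
intersection has codimension `m_j`; each component has weight one.

Let `f_{il}` be `(n + 1) d` multiplicative functions from the class described below, for example
Euler's function and the sum of the divisors. We consider the points `P = (y_0 : … : y_n)` of
`ℙⁿ(K)` with `y_i = ∑_l f_{il}(a_{il}) ω_l` (over `ℚ`: `P = (f_0(a_0) : … : f_n(a_n))`, e. g.
`(φ(a_0) : … : φ(a_n))`), and also all the points whose integral coordinates are near these
values. For each `θ < ∑ m_j`, for all tuples `a` in `[1, N] ^ ((n + 1) d)` with the exception of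
at most `N ^ ((n + 1) d) / (log N) ^ U`, all these points lie off `D` and satisfy

  `N¹_S(D, P) ≥ θ h(P) + Λ ∑ h_{(F'_l, G'_l)}(P)`.

As `h_{K + D} = (∑ k_j - n - 1) h` on `ℙⁿ`, this is the inequality of the question, with
`ε = C = 0`, whenever the sum of the `k_j - m_j` is at most `n`.

The values of `f_{il}` are taken with very large multiplicities (and have density zero), and so this
does not follow from the number of the exceptional points alone. The proof combines the sparse
exceptional sets of `R366/NF` (starting files), made into a statement about all integral vectors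
(also those with a large content), with the theorem `keep_tuples2` of `N733/TG` (starting files).
-/

set_option autoImplicit false

namespace Pool.Agent.J4.H2.VT.MultCoord

open MvPolynomial NumberField IsDedekindDomain

variable {K : Type} [Field K] [NumberField K] {n q : ℕ}

/-- `f` is multiplicative, positive and of polynomial growth, and for the large primes `p` we have
`f(p) ≤ M p`, and different large primes have different values -/
structure LinearAtPrimes (f : ℕ → ℕ) : Prop where
  mul : ∀ m n : ℕ, Nat.Coprime m n → f (m * n) = f m * f n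
  pos : ∀ m : ℕ, 1 ≤ m → 1 ≤ f m
  growth : ∃ C D : ℕ, ∀ m : ℕ, 1 ≤ m → f m ≤ C * m ^ D
  prime : ∃ P M : ℕ, ∀ p : ℕ, P ≤ p → p.Prime →
    f p ≤ M * p ∧ ∀ q : ℕ, P ≤ q → q.Prime → f q = f p → q = p

/-- `F` is, up to a constant factor, the norm form of `∑ α i * x i` from an extension `E` of `K`, and
`m` of the `α i` are linearly independent over `K`. -/
def IsNormForm (F : MvPolynomial (Fin (n + 1)) (𝓞 K)) (m : ℕ) : Prop :=
  ∃ (E : Type) (_ : Field E) (_ : NumberField E) (_ : Algebra K E) (c : K) (α : Fin (n + 1) → E)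
    (J : Finset (Fin (n + 1))), c ≠ 0 ∧ J.card = m ∧
      LinearIndependent K (fun j : J => α j) ∧
      ∀ x : Fin (n + 1) → 𝓞 K, ((eval x F : 𝓞 K) : K) =
        c * Algebra.norm K (∑ i, algebraMap K E (x i) * α i)

open Classical in
/-- The truncated counting function `N¹_S(D, P)` at the point `P` with coordinates `x`: the sum of
`log N(v)` over the primes `v` of `K`, not above `S`, with `|F_j(x)|_v < |x|_v ^ k_j` for some `j`. -/
noncomputable def truncatedCount (S : Finset ℕ) (F : Fin q → MvPolynomial (Fin (n + 1)) (𝓞 K))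
    (k : Fin q → ℕ) (x : Fin (n + 1) → K) : ℝ :=
  ∑ᶠ v : HeightOneSpectrum (𝓞 K), if (∀ p ∈ S, (p : 𝓞 K) ∉ v.asIdeal) ∧
      ∃ j, FinitePlace.mk v (aeval x (F j)) < (⨆ i, FinitePlace.mk v (x i)) ^ k j
    then Real.log (Ideal.absNorm v.asIdeal) else 0

/-- the local height relative to the ideal `(F, G)`, `F` and `G` forms of degrees `k` and `e` -/
noncomputable def idealLoc (F G : MvPolynomial (Fin (n + 1)) (𝓞 K)) (k e : ℕ)
    (x : Fin (n + 1) → K) (v : K → ℝ) : ℝ :=
  - Real.log (max (v (aeval x F) / (⨆ i, v (x i)) ^ k) (v (aeval x G) / (⨆ i, v (x i)) ^ e))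

/-- the height relative to the ideal `(F, G)`, `F` and `G` forms of degrees `k` and `e` -/
noncomputable def idealHeight (F G : MvPolynomial (Fin (n + 1)) (𝓞 K)) (k e : ℕ)
    (x : Fin (n + 1) → K) : ℝ :=
  ∑ w : InfinitePlace K, w.mult * idealLoc F G k e x w +
    ∑ᶠ v : FinitePlace K, idealLoc F G k e x v

/-- the indices of the integral basis of `K` -/
abbrev Idx (K : Type) [Field K] [NumberField K] : Type := Module.Free.ChooseBasisIndex ℤ (𝓞 K)

/-- **Points whose coordinates are (near) values of multiplicative functions.** Let `F_j`, `j < q`,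
be forms over the integers of `K` in `n + 1 ≥ 2` variables, of degrees `k_j`, irreducible over `K` and
pairwise not associated, with weights `m_j` (`m_j ≤ 1`, or `m_j ≤ k_j ≤ 2`, or `F_j` is a norm form
of linear forms spanning a space of dimension `m_j`), `S` a finite set of rational primes, `(F'_l, G'_l)`
pairs of forms with `F'_l` irreducible, not dividing `G'_l`, `Λ ≥ 0` and `0 ≤ θ < ∑ m_j`. There is
`κ > 0` such that for all functions `f_{il}` which are `LinearAtPrimes`, all `U` and all large `N`: for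
all `a = (a_{il})`, `1 ≤ a_{il} ≤ N`, with at most `N ^ ((n + 1) d) / (log N) ^ U` exceptions,
`d = [K : ℚ]`, EVERY vector `y` of integers of `K`, whose coordinates with respect to the integral
basis are within `f_{il}(a_{il}) ^ κ` of `f_{il}(a_{il})`, satisfies `F_j(y) ≠ 0` for all `j` and
`θ h(y) + Λ ∑_l h_{(F'_l, G'_l)}(y) ≤ N¹_S(D, y)`. Euler's function and the sum of the divisors are
`LinearAtPrimes`. -/
theorem result (K : Type) [Field K] [NumberField K] (n q : ℕ) (hn : 1 ≤ n)
    (F : Fin q → MvPolynomial (Fin (n + 1)) (𝓞 K)) (k m : Fin q → ℕ)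
    (hhom : ∀ j, (F j).IsHomogeneous (k j))
    (hirr : ∀ j, Irreducible (map (algebraMap (𝓞 K) K) (F j)))
    (hdist : ∀ i j, i ≠ j →
      ¬ Associated (map (algebraMap (𝓞 K) K) (F i)) (map (algebraMap (𝓞 K) K) (F j)))
    (hm : ∀ j, m j ≤ 1 ∨ (m j ≤ k j ∧ k j ≤ 2) ∨ IsNormForm (F j) (m j))
    (S : Finset ℕ) (hS : ∀ p ∈ S, p.Prime)
    (t : ℕ) (F' G' : Fin t → MvPolynomial (Fin (n + 1)) (𝓞 K)) (k' e' : Fin t → ℕ)
    (hF' : ∀ l, (F' l).IsHomogeneous (k' l))
    (hirr' : ∀ l, Irreducible (map (algebraMap (𝓞 K) K) (F' l)))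
    (hcop : ∀ l, ¬ map (algebraMap (𝓞 K) K) (F' l) ∣ map (algebraMap (𝓞 K) K) (G' l))
    (Λ : ℝ) (hΛ : 0 ≤ Λ) (θ : ℝ) (hθ0 : 0 ≤ θ) (hθ : θ < ∑ j, (m j : ℝ)) :
    (∃ κ : ℝ, 0 < κ ∧ ∀ f : Fin (n + 1) × Idx K → ℕ → ℕ, (∀ z, LinearAtPrimes (f z)) → ∀ U : ℕ,
      ∃ N₀ : ℕ, ∀ N : ℕ, N₀ ≤ N →
        (Set.ncard {a : Fin (n + 1) × Idx K → ℕ | (∀ z, 1 ≤ a z ∧ a z ≤ N) ∧
          ¬ ∀ y : Fin (n + 1) → 𝓞 K,
            (∀ i l, |(((RingOfIntegers.basis K).repr (y i) l : ℤ) : ℝ) - f (i, l) (a (i, l))| ≤
              (f (i, l) (a (i, l)) : ℝ) ^ κ) →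
            (∀ j, eval y (F j) ≠ 0) ∧
            θ * Height.logHeight (fun i => (y i : K)) +
              Λ * ∑ l, idealHeight (F' l) (G' l) (k' l) (e' l) (fun i => (y i : K)) ≤
            truncatedCount S F k (fun i => (y i : K))} : ℝ) ≤
          (N : ℝ) ^ ((n + 1) * Module.finrank ℚ K) / Real.log N ^ U) ∧
    LinearAtPrimes Nat.totient ∧ LinearAtPrimes (fun m => ∑ d ∈ m.divisors, d) := by
  refine ⟨?_, ?_, ?_⟩
  · obtain ⟨κ, hκ, h⟩ := Pool.Agent.J4.H74.VojLM.vojta_lm hn F k m hhom hirr hdist hm S hS F' G' k' e'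
      hF' hirr' hcop Λ hΛ θ hθ0 hθ
    refine ⟨κ, hκ, fun f hf U => ?_⟩
    obtain ⟨N₀, hN₀⟩ := h f (fun z => ⟨(hf z).mul, (hf z).pos, (hf z).growth, (hf z).prime⟩) U
    exact ⟨N₀, fun N hN => hN₀ N hN⟩
  · have h := Pool.Agent.N733.TG.lm_totient
    exact ⟨h.mul, h.pos, h.growth, h.prime⟩
  · have h := Pool.Agent.N733.TG.lm_sigma
    exact ⟨h.mul, h.pos, h.growth, h.prime⟩

end Pool.Agent.J4.H2.VT.MultCoord
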