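import Pool.Agent.J4.H2.VT.Defs

/-!
# Project VT (helper2), piece ABV (helper45): the primes above a finite set of primes
-/

set_option autoImplicit false

open MvPolynomial NumberField IsDedekindDomain Module

namespace Pool.Agent.J4.H2.VT

open Pool.Agent.J4.H5.VJ

namespace ABV

variable {L L' : Type} [Field L] [NumberField L] [Field L'] [NumberField L'] [Algebra L L']

/-- the primes above `v` -/
def ov (L' : Type) [Field L'] [NumberField L'] [Algebra L L'] (v : HeightOneSpectrum (𝓞 L)) :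
    Set (HeightOneSpectrum (𝓞 L')) := {w | w.asIdeal.LiesOver v.asIdeal}

theorem mem_pof (v : HeightOneSpectrum (𝓞 L)) (P : Ideal (𝓞 L')) :
    P ∈ IsDedekindDomain.primesOverFinset v.asIdeal (𝓞 L') ↔ P.IsPrime ∧ P.LiesOver v.asIdeal := by
  have := v.isMaximal
  exact IsDedekindDomain.mem_primesOverFinset_iff v.ne_bot _

theorem ov_finite (v : HeightOneSpectrum (𝓞 L)) : (ov L' v).Finite := by
  refine ((IsDedekindDomain.primesOverFinset v.asIdeal (𝓞 L')).finite_toSet.preimage
    (f := fun w : HeightOneSpectrum (𝓞 L') => w.asIdeal) ?_).subset ?_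
  · intro w _ w' _ h
    exact HeightOneSpectrum.ext h
  · intro w hw
    rw [Set.mem_preimage, Finset.mem_coe, mem_pof]
    exact ⟨w.isPrime, hw⟩

theorem sum_dg (v : HeightOneSpectrum (𝓞 L)) :
    ∑ w ∈ (ov_finite (L' := L') v).toFinset,
      v.asIdeal.ramificationIdx' w.asIdeal * v.asIdeal.inertiaDeg' w.asIdeal = finrank L L' := by
  have := v.isMaximal
  rw [← Ideal.sum_ramification_inertia (𝓞 L') L L' v.ne_bot]
  refine Finset.sum_bij (fun w _ => w.asIdeal) ?_ ?_ ?_ ?_
  · intro w hw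
    rw [Set.Finite.mem_toFinset] at hw
    rw [mem_pof]
    exact ⟨w.isPrime, hw⟩
  · intro w _ w' _ h
    exact HeightOneSpectrum.ext h
  · intro P hP
    rw [mem_pof] at hP
    have hb : P ≠ ⊥ := by
      intro hb
      have h1 := hP.2.over
      rw [hb, Ideal.under_bot] at h1
      exact v.ne_bot h1
    refine ⟨⟨P, hP.1, hb⟩, ?_, rfl⟩
    rw [Set.Finite.mem_toFinset]
    exact hP.2
  · intro w _
    rfl

theorem sum_le (v : HeightOneSpectrum (𝓞 L)) :
    ∑ w ∈ (ov_finite (L' := L') v).toFinset, Real.log (Ideal.absNorm w.asIdeal : ℝ) ≤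
      finrank L L' * Real.log (Ideal.absNorm v.asIdeal : ℝ) := by
  have := v.isMaximal
  have h0 : 0 ≤ Real.log (Ideal.absNorm v.asIdeal : ℝ) := Real.log_nonneg (by
    exact_mod_cast (HeightOneSpectrum.one_lt_absNorm v).le)
  rw [← sum_dg (L' := L') v]
  push_cast
  rw [Finset.sum_mul]
  refine Finset.sum_le_sum fun w hw => ?_
  have hlies : w.asIdeal.LiesOver v.asIdeal :=
    (Set.Finite.mem_toFinset (ov_finite (L' := L') v)).mp hw
  have hN : Ideal.absNorm w.asIdeal = Ideal.absNorm v.asIdeal ^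
      (v.asIdeal.inertiaDeg' w.asIdeal) :=
    Ideal.absNorm_eq_pow_inertiaDeg'_of_liesOver w.asIdeal v.asIdeal v.isPrime v.ne_bot
  have he : 1 ≤ v.asIdeal.ramificationIdx' w.asIdeal := Nat.one_le_iff_ne_zero.mpr
    (Ideal.IsDedekindDomain.ramificationIdx'_ne_zero_of_liesOver w.asIdeal v.ne_bot)
  rw [hN]
  push_cast
  rw [Real.log_pow]
  refine mul_le_mul_of_nonneg_right ?_ h0
  have h1 : (1 : ℝ) ≤ (v.asIdeal.ramificationIdx' w.asIdeal : ℝ) := by exact_mod_cast he
  have h2 : (0 : ℝ) ≤ (v.asIdeal.inertiaDeg' w.asIdeal : ℝ) := Nat.cast_nonneg _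
  nlinarith

end ABV

open ABV

theorem t_ABV : S_ABV := by
  classical
  intro k L _ _ _ _ _ S
  have hT : primesAbove S L = ↑(S.biUnion fun v => (ov_finite (L' := L) v).toFinset) := by
    ext w
    simp only [primesAbove, Set.mem_ofPred_eq, Finset.mem_coe, Finset.mem_biUnion,
      Set.Finite.mem_toFinset, ov]
  refine ⟨by rw [hT]; exact Finset.finite_toSet _, ?_⟩
  rw [hT, finsum_mem_coe_finset, Finset.sum_biUnion]
  · rw [Finset.mul_sum]
    exact Finset.sum_le_sum fun v _ => sum_le v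
  · intro v _ v' _ hne
    rw [Function.onFun, Finset.disjoint_left]
    intro w hw hw'
    have h1 : w.asIdeal.LiesOver v.asIdeal :=
      (Set.Finite.mem_toFinset (ov_finite (L' := L) v)).mp hw
    have h2 : w.asIdeal.LiesOver v'.asIdeal :=
      (Set.Finite.mem_toFinset (ov_finite (L' := L) v')).mp hw'
    exact hne (HeightOneSpectrum.ext (h1.over.trans h2.over.symm))

end Pool.Agent.J4.H2.VT
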