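import Pool.Agent.J4.H2.VT.Defs

/-!
# The set of the primes at which a point meets a divisor is finite
-/

set_option autoImplicit false

open MvPolynomial NumberField IsDedekindDomain Module

namespace Pool.Agent.J4.H2.VT

open Pool.Agent.J4.H5.VJ

theorem t_FIN : S_FIN := by
  intro k L _ _ _ _ _ M S e F x hF
  have h1 : (⋃ j, HeightOneSpectrum.Support (𝓞 L) (x j)).Finite :=
    Set.finite_iUnion fun j => HeightOneSpectrum.Support.finite (𝓞 L) (x j)
  have h2 := HeightOneSpectrum.Support.finite (𝓞 L) (aeval x F)⁻¹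
  refine (h1.union h2).subset ?_
  rintro w ⟨-, j, hj⟩
  by_contra hc
  simp only [Set.mem_union, Set.mem_iUnion, not_or, not_exists, HeightOneSpectrum.Support,
    Set.mem_ofPred_eq, not_lt] at hc
  obtain ⟨h3, h4⟩ := hc
  have h5 : w.valuation L (aeval x F) ≠ 0 := (Valuation.ne_zero_iff _).2 hF
  rw [map_inv₀] at h4
  have h6 : 1 ≤ w.valuation L (aeval x F) := (inv_le_one₀ (zero_lt_iff.2 h5)).1 h4
  exact absurd (h6.trans_lt hj) (not_lt.2 (pow_le_one₀ zero_le (h3 j)))

end Pool.Agent.J4.H2.VT
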