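import Pool.Agent.J4.H2.VT.Defs4
import Pool.Agent.J4.H5.VJ.T_LINV

/-!
# Project VT, piece GLIN: the Gauss map and linear changes of the coordinates
-/

set_option autoImplicit false

open MvPolynomial NumberField IsDedekindDomain Module

namespace Pool.Agent.J4.H2.VT

open Pool.Agent.J4.H5.VJ

theorem t_GLIN : S_GLIN := by
  intro k _ _ n t s f g hg
  have h12 : g * g⁻¹ = 1 := Matrix.mul_nonsing_inv g hg
  have h21 : g⁻¹ * g = 1 := Matrix.nonsing_inv_mul g hg
  refine ⟨finrank ℚ k * Real.log (Nat.card (Fin s → Fin (n + 1))) + Height.logHeight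
    (fun p : (Fin s → Fin (n + 1)) × (Fin s → Fin (n + 1)) => ∏ j, g⁻¹ (p.2 j) (p.1 j)), ?_⟩
  intro L _ _ _ x α hα
  have hx : (fun i => ∑ j, algebraMap k L (g⁻¹ i j) * ∑ l, algebraMap k L (g j l) * x l) = x := by
    funext i
    exact LINH.mul_inv_apply g⁻¹ g h21 x i
  have hrow := LINV.gaussRow_lin g g⁻¹ h12 f α (fun i => ∑ j, algebraMap k L (g i j) * x j)
  simp only [hx] at hrow
  constructor
  · intro h
    apply hα
    rw [hrow, h]
    funext β
    simp
  · have := LINV.heightI_le (L := L)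
      (fun p : (Fin s → Fin (n + 1)) × (Fin s → Fin (n + 1)) => ∏ j, g⁻¹ (p.2 j) (p.1 j))
      (gaussRow (fun i => lin g (f i)) α x)
    rw [hrow]
    exact this

end Pool.Agent.J4.H2.VT
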