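import Pool.Agent.J4.H2.VT.Defs
import Pool.Agent.J4.H5.VJ.T_CNT

/-!
# Project VT (helper2), piece HYP (helper45)
-/

set_option autoImplicit false

open MvPolynomial NumberField IsDedekindDomain Module

namespace Pool.Agent.J4.H2.VT

open Pool.Agent.J4.H5.VJ

theorem t_HYP : S_HYP := by
  intro k L _ _ _ _ _ n S x hx
  obtain ⟨T, hT, hsum⟩ := t_CNT n L x hx
  have hsub : meets S (n + 1) (∏ i, (X i : MvPolynomial (Fin (n + 1)) k)) (pt x) ⊆ ↑T := by
    rintro w ⟨-, j, hj⟩
    by_contra hw
    have h1 := hT w (fun h => hw (Finset.mem_coe.mpr h))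
    have h2 : ∀ i, w.valuation L (pt x i) = 1 := by
      intro i
      refine Fin.cases ?_ (fun i => ?_) i
      · simp [pt]
      · simpa [pt] using h1 i
    rw [map_prod] at hj
    simp only [aeval_X] at hj
    rw [map_prod, Finset.prod_congr rfl (fun i _ => h2 i), h2 j] at hj
    simp at hj
  have hfin : (meets S (n + 1) (∏ i, (X i : MvPolynomial (Fin (n + 1)) k)) (pt x)).Finite :=
    T.finite_toSet.subset hsub
  unfold truncated height
  rw [finsum_mem_eq_finite_toFinset_sum _ hfin, ← mul_div_assoc]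
  refine div_le_div_of_nonneg_right ?_ (Nat.cast_nonneg _)
  refine le_trans ?_ hsum
  refine Finset.sum_le_sum_of_subset_of_nonneg ?_ ?_
  · intro w hw
    exact Finset.mem_coe.mp (hsub (hfin.mem_toFinset.mp hw))
  · intro w _ _
    refine Real.log_nonneg ?_
    exact_mod_cast (HeightOneSpectrum.one_lt_absNorm w).le

end Pool.Agent.J4.H2.VT
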