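import Pool.Agent.J4.H2.VT.Defs2
import Pool.Agent.J4.H5.VJ.T_LINH

/-!
# Project VT, piece LHT: heights and linear changes of the coordinates
-/

set_option autoImplicit false

open MvPolynomial NumberField IsDedekindDomain Module

namespace Pool.Agent.J4.H2.VT

open Pool.Agent.J4.H5.VJ

theorem t_LHT : S_LHT := by
  intro k _ _ n g hg
  have h21 : g⁻¹ * g = 1 := Matrix.nonsing_inv_mul g hg
  set c1 : ℝ := finrank ℚ k * Real.log (n + 1) + Height.logHeight
    (fun p : Fin (n + 1) × Fin (n + 1) => g p.1 p.2) with hc1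
  set c2 : ℝ := finrank ℚ k * Real.log (n + 1) + Height.logHeight
    (fun p : Fin (n + 1) × Fin (n + 1) => g⁻¹ p.1 p.2) with hc2
  refine ⟨max c1 c2, ?_⟩
  intro L _ _ _ x hx
  have h1 := LINH.height_le (L := L) g x
  have h2 := LINH.height_le (L := L) g⁻¹ (fun i => ∑ j, algebraMap k L (g i j) * x j)
  have h3 : (fun i => ∑ j, algebraMap k L (g⁻¹ i j) * ∑ l, algebraMap k L (g j l) * x l) = x := by
    funext i
    exact LINH.mul_inv_apply g⁻¹ g h21 x i
  rw [h3] at h2
  rw [abs_le]
  have m1 := le_max_left c1 c2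
  have m2 := le_max_right c1 c2
  constructor
  · linarith
  · linarith

end Pool.Agent.J4.H2.VT
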