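import Pool.Agent.J4.H2.VT.Defs2
import Pool.Agent.J4.H2.VT.T_FIN

/-!
# Project VT (helper2), piece LTR (insurance copy, helper45): linear changes of the coordinates
-/

set_option autoImplicit false

open MvPolynomial NumberField IsDedekindDomain Module

namespace Pool.Agent.J4.H2.VT

open Pool.Agent.J4.H5.VJ

namespace LTR2

theorem aeval_lin {k L : Type} [Field k] [Field L] [Algebra k L] {n : ℕ}
    (g : Matrix (Fin (n + 1)) (Fin (n + 1)) k) (F : MvPolynomial (Fin (n + 1)) k)
    (x : Fin (n + 1) → L) :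
    aeval x (lin g F) = aeval (fun i => ∑ j, algebraMap k L (g i j) * x j) F := by
  unfold lin
  rw [aeval_bind₁]
  congr 2
  funext i
  rw [map_sum]
  refine Finset.sum_congr rfl fun j _ => ?_
  rw [map_mul, aeval_C, aeval_X]

theorem inv_apply {k L : Type} [Field k] [Field L] [Algebra k L] {n : ℕ}
    (g : Matrix (Fin (n + 1)) (Fin (n + 1)) k) (hg : IsUnit g.det) (x : Fin (n + 1) → L)
    (j : Fin (n + 1)) :
    x j = ∑ i, algebraMap k L (g⁻¹ j i) * ∑ l, algebraMap k L (g i l) * x l := by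
  have h1 : (g⁻¹.map (algebraMap k L)).mulVec ((g.map (algebraMap k L)).mulVec x) = x := by
    rw [Matrix.mulVec_mulVec, ← Matrix.map_mul, Matrix.nonsing_inv_mul g hg,
      Matrix.map_one _ (map_zero _) (map_one _), Matrix.one_mulVec]
  exact (congrFun h1 j).symm

/-- the primes at which a matrix is not integral -/
theorem finite_bad {k : Type} [Field k] [NumberField k] {n : ℕ}
    (g : Matrix (Fin (n + 1)) (Fin (n + 1)) k) :
    (⋃ p : Fin (n + 1) × Fin (n + 1), HeightOneSpectrum.Support (𝓞 k) (g p.1 p.2)).Finite :=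
  Set.finite_iUnion fun p => HeightOneSpectrum.Support.finite (𝓞 k) (g p.1 p.2)

end LTR2

open LTR2

theorem t_LTR2 (h : S_ABV) : S_LTR := by
  classical
  intro k _ _ n F e g hg _
  set S₀ : Finset (HeightOneSpectrum (𝓞 k)) := (finite_bad g⁻¹).toFinset with hS₀
  refine ⟨∑ v ∈ S₀, Real.log (Ideal.absNorm v.asIdeal : ℝ), ?_⟩
  intro S L _ _ _ x _ hF
  set y : Fin (n + 1) → L := fun i => ∑ j, algebraMap k L (g i j) * x j with hy
  have hFy : aeval x (lin g F) = aeval y F := aeval_lin g F x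
  have hBf := t_FIN k L (n + 1) S e F y (by rw [← hFy]; exact hF)
  obtain ⟨hPf, hP⟩ := h k L S₀
  have hsub : meets S e (lin g F) x ⊆ meets S e F y ∪ primesAbove S₀ L := by
    rintro w ⟨hwS, j, hj⟩
    by_cases hw : w ∈ primesAbove S₀ L
    · exact Or.inr hw
    refine Or.inl ⟨hwS, ?_⟩
    obtain ⟨i₀, hi₀⟩ := Finite.exists_max (fun i => w.valuation L (y i))
    refine ⟨i₀, ?_⟩
    rw [hFy] at hj
    refine hj.trans_le (pow_le_pow_left' ?_ e)
    rw [inv_apply g hg x j]
    refine Valuation.map_sum_le _ fun i _ => ?_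
    rw [map_mul]
    have h1 : w.valuation L (algebraMap k L (g⁻¹ j i)) ≤ 1 := by
      set v : HeightOneSpectrum (𝓞 k) := HeightOneSpectrum.under (𝓞 k) w with hv
      have hlies : w.asIdeal.LiesOver v.asIdeal := ⟨rfl⟩
      have h2 : v.valuation k (g⁻¹ j i) ≤ 1 := by
        by_contra hlt
        refine hw ⟨v, ?_, hlies⟩
        rw [hS₀, Set.Finite.mem_toFinset, Set.mem_iUnion]
        exact ⟨(j, i), not_le.mp hlt⟩
      rw [← HeightOneSpectrum.valuation_liesOver L v w (g⁻¹ j i)]
      exact pow_le_one' h2 _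
    calc _ ≤ 1 * w.valuation L (y i) := mul_le_mul' h1 le_rfl
      _ = w.valuation L (y i) := one_mul _
      _ ≤ _ := hi₀ i
  have hAf : (meets S e (lin g F) x).Finite := (hBf.union hPf).subset hsub
  have hlog : ∀ w : HeightOneSpectrum (𝓞 L), 0 ≤ Real.log (Ideal.absNorm w.asIdeal : ℝ) :=
    fun w => Real.log_nonneg (by exact_mod_cast (HeightOneSpectrum.one_lt_absNorm w).le)
  have hfr : (0 : ℝ) < finrank k L := by
    exact_mod_cast (finrank_pos : 0 < finrank k L)
  unfold truncated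
  rw [finsum_mem_eq_finite_toFinset_sum _ hAf, finsum_mem_eq_finite_toFinset_sum _ hBf]
  rw [finsum_mem_eq_finite_toFinset_sum _ hPf] at hP
  rw [div_add' _ _ _ hfr.ne']
  refine div_le_div_of_nonneg_right ?_ hfr.le
  calc ∑ w ∈ hAf.toFinset, Real.log (Ideal.absNorm w.asIdeal : ℝ)
      ≤ ∑ w ∈ hBf.toFinset ∪ hPf.toFinset, Real.log (Ideal.absNorm w.asIdeal : ℝ) := by
        refine Finset.sum_le_sum_of_subset_of_nonneg ?_ fun w _ _ => hlog w
        intro w hw
        rw [Finset.mem_union, Set.Finite.mem_toFinset, Set.Finite.mem_toFinset]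
        exact hsub (hAf.mem_toFinset.mp hw)
    _ ≤ ∑ w ∈ hBf.toFinset, Real.log (Ideal.absNorm w.asIdeal : ℝ) +
          ∑ w ∈ hPf.toFinset, Real.log (Ideal.absNorm w.asIdeal : ℝ) := by
        rw [← Finset.sum_union_inter]
        exact le_add_of_nonneg_right (Finset.sum_nonneg fun w _ => hlog w)
    _ ≤ _ := by
        rw [mul_comm]
        exact add_le_add le_rfl hP

end Pool.Agent.J4.H2.VT
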