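import Pool.Agent.J4.H2.VT.Defs4
import Pool.Agent.J4.H2.VT.T_LTR2
import Pool.Agent.J4.H2.VT.T_ABV

/-!
# Project VT (helper2), piece LTRI (helper45): linear changes of the coordinates, tuples of forms
-/

set_option autoImplicit false

open MvPolynomial NumberField IsDedekindDomain Module

namespace Pool.Agent.J4.H2.VT

open Pool.Agent.J4.H5.VJ

open LTR2

theorem t_LTRI : S_LTRI := by
  classical
  intro k _ _ n u G e g hg _
  set S₀ : Finset (HeightOneSpectrum (𝓞 k)) := (finite_bad g⁻¹).toFinset with hS₀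
  refine ⟨∑ v ∈ S₀, Real.log (Ideal.absNorm v.asIdeal : ℝ), ?_⟩
  intro S L _ _ _ x _ hG
  set y : Fin (n + 1) → L := fun i => ∑ j, algebraMap k L (g i j) * x j with hy
  have hGy : ∀ i, aeval x (lin g (G i)) = aeval y (G i) := fun i => aeval_lin g (G i) x
  obtain ⟨i₁, hi₁⟩ := hG
  have hsub₀ : meetsI S e G y ⊆ meets S e (G i₁) y := by
    rintro w ⟨hwS, j, hj⟩
    exact ⟨hwS, j, hj i₁⟩
  have hBf : (meetsI S e G y).Finite :=
    (t_FIN k L (n + 1) S e (G i₁) y (by rw [← hGy]; exact hi₁)).subset hsub₀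
  obtain ⟨hPf, hP⟩ := t_ABV k L S₀
  have hsub : meetsI S e (fun i => lin g (G i)) x ⊆ meetsI S e G y ∪ primesAbove S₀ L := by
    rintro w ⟨hwS, j, hj⟩
    by_cases hw : w ∈ primesAbove S₀ L
    · exact Or.inr hw
    refine Or.inl ⟨hwS, ?_⟩
    obtain ⟨i₀, hi₀⟩ := Finite.exists_max (fun i => w.valuation L (y i))
    refine ⟨i₀, fun i => ?_⟩
    have hji := hj i
    rw [hGy] at hji
    refine hji.trans_le (pow_le_pow_left' ?_ e)
    rw [inv_apply g hg x j]
    refine Valuation.map_sum_le _ fun i _ => ?_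
    rw [map_mul]
    have h1 : w.valuation L (algebraMap k L (g⁻¹ j i)) ≤ 1 := by
      set v : HeightOneSpectrum (𝓞 k) := HeightOneSpectrum.under (𝓞 k) w with hv
      have hlies : w.asIdeal.LiesOver v.asIdeal := ⟨rfl⟩
      have h2 : v.valuation k (g⁻¹ j i) ≤ 1 := by
        by_contra hlt
        refine hw ⟨v, ?_, hlies⟩
        rw [hS₀, Set.Finite.mem_toFinset, Set.mem_iUnion]
        exact ⟨(j, i), not_le.mp hlt⟩
      rw [← HeightOneSpectrum.valuation_liesOver L v w (g⁻¹ j i)]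
      exact pow_le_one' h2 _
    calc _ ≤ 1 * w.valuation L (y i) := mul_le_mul' h1 le_rfl
      _ = w.valuation L (y i) := one_mul _
      _ ≤ _ := hi₀ i
  have hAf : (meetsI S e (fun i => lin g (G i)) x).Finite := (hBf.union hPf).subset hsub
  have hlog : ∀ w : HeightOneSpectrum (𝓞 L), 0 ≤ Real.log (Ideal.absNorm w.asIdeal : ℝ) :=
    fun w => Real.log_nonneg (by exact_mod_cast (HeightOneSpectrum.one_lt_absNorm w).le)
  have hfr : (0 : ℝ) < finrank k L := by
    exact_mod_cast (finrank_pos : 0 < finrank k L)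
  unfold truncatedI
  rw [finsum_mem_eq_finite_toFinset_sum _ hAf, finsum_mem_eq_finite_toFinset_sum _ hBf]
  rw [finsum_mem_eq_finite_toFinset_sum _ hPf] at hP
  rw [div_add' _ _ _ hfr.ne']
  refine div_le_div_of_nonneg_right ?_ hfr.le
  calc ∑ w ∈ hAf.toFinset, Real.log (Ideal.absNorm w.asIdeal : ℝ)
      ≤ ∑ w ∈ hBf.toFinset ∪ hPf.toFinset, Real.log (Ideal.absNorm w.asIdeal : ℝ) := by
        refine Finset.sum_le_sum_of_subset_of_nonneg ?_ fun w _ _ => hlog w
        intro w hw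
        rw [Finset.mem_union, Set.Finite.mem_toFinset, Set.Finite.mem_toFinset]
        exact hsub (hAf.mem_toFinset.mp hw)
    _ ≤ ∑ w ∈ hBf.toFinset, Real.log (Ideal.absNorm w.asIdeal : ℝ) +
          ∑ w ∈ hPf.toFinset, Real.log (Ideal.absNorm w.asIdeal : ℝ) := by
        rw [← Finset.sum_union_inter]
        exact le_add_of_nonneg_right (Finset.sum_nonneg fun w _ => hlog w)
    _ ≤ _ := by
        rw [mul_comm]
        exact add_le_add le_rfl hP

end Pool.Agent.J4.H2.VT
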