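import Pool.Agent.J4.H5.VJ.T_SER
import Pool.Agent.J4.H2.VT.Defs

/-!
# The discriminant of a Galois extension, with some primes counted once more
-/

set_option autoImplicit false
set_option linter.all false

namespace Pool.Agent.J4.H2.VT.SER2

open NumberField UniqueFactorizationMonoid IsDedekindDomain Module
open scoped Pointwise nonZeroDivisors
open Pool.Agent.J4.H5.VJ.SER

variable {K F : Type} [Field K] [NumberField K] [Field F] [NumberField F] [Algebra K F]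

/-- the exponent of a prime in the different -/
lemma loc2 [IsGalois K F] (v : Ideal (𝓞 K)) (hv : v.IsMaximal) (hv0 : v ≠ ⊥) (k : ℕ)
    (hk : ((finrank K F : ℕ) : 𝓞 K) ∉ v ^ k) (P : Ideal (𝓞 F)) (hP : P.IsPrime) (hP0 : P ≠ ⊥)
    (hvP : P.LiesOver v) (j : ℕ) (hj : P ^ j ∣ differentIdeal (𝓞 K) (𝓞 F)) :
    P ^ (j + 1) ∣ (v ^ k).map (algebraMap (𝓞 K) (𝓞 F)) := by
  by_contra hcon
  apply hk
  have hvk : v ^ k ≠ ⊥ := pow_ne_zero _ hv0
  have hI : (v ^ k).map (algebraMap (𝓞 K) (𝓞 F)) ≠ ⊥ := map_ne _ hvk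
  apply trace_part (F := F) (v ^ k) hvk
  rw [← Ideal.dvd_iff_le]
  apply dvd_of_pow hI diff_ne_bot
  intro Q hQ hQ0 i hi
  rcases Nat.eq_zero_or_pos i with h0 | hi0
  · subst h0; simp
  have hvQ : Q.LiesOver v := by
    have h1 : Q ∣ (v ^ k).map (algebraMap (𝓞 K) (𝓞 F)) := (dvd_pow_self Q hi0.ne').trans hi
    rw [Ideal.map_pow] at h1
    have h2 : Q ∣ v.map (algebraMap (𝓞 K) (𝓞 F)) :=
      (Ideal.prime_of_isPrime hQ0 hQ).dvd_of_dvd_pow h1
    rw [Ideal.dvd_iff_le, Ideal.map_le_iff_le_comap] at h2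
    exact ⟨hv.eq_of_le (Ideal.comap_ne_top _ hQ.ne_top) h2⟩
  obtain ⟨σ, hσ⟩ := Ideal.exists_smul_eq_of_isGaloisGroup v P Q (F ≃ₐ[K] F)
  have h2 : P ^ i ∣ (v ^ k).map (algebraMap (𝓞 K) (𝓞 F)) := by
    rw [Ideal.dvd_iff_le]
    have h3 : σ⁻¹ • (v ^ k).map (algebraMap (𝓞 K) (𝓞 F)) ≤ σ⁻¹ • (Q ^ i) := by
      rw [Ideal.pointwise_smul_le_pointwise_smul_iff]
      exact Ideal.dvd_iff_le.mp hi
    rw [smul_map, smul_pow', ← hσ, inv_smul_smul] at h3
    exact h3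
  have hij : i < j + 1 := by
    by_contra h
    push Not at h
    exact hcon ((pow_dvd_pow P h).trans h2)
  have h4 : differentIdeal (𝓞 K) (𝓞 F) ≤ P ^ i :=
    Ideal.dvd_iff_le.mp ((pow_dvd_pow P (Nat.lt_succ_iff.mp hij)).trans hj)
  have h5 := inv_diff σ (P ^ i) (pow_ne_zero _ hP0) h4
  rw [smul_pow', hσ] at h5
  exact Ideal.dvd_iff_le.mpr h5

/-- the part of a power of a prime prime to a product of other primes -/
lemma cop (P : Ideal (𝓞 F)) (hP : P.IsPrime) (hP0 : P ≠ ⊥) (W : Finset (HeightOneSpectrum (𝓞 F)))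
    (hPW : ∀ w ∈ W, w.asIdeal ≠ P) (I : Ideal (𝓞 F)) (j : ℕ)
    (h : P ^ j ∣ I * ∏ w ∈ W, w.asIdeal) : P ^ j ∣ I := by
  refine IsCoprime.dvd_of_dvd_mul_right ?_ h
  apply IsCoprime.pow_left
  apply IsCoprime.prod_right
  intro w hw
  rw [Ideal.isCoprime_iff_sup_eq]
  exact Ideal.IsMaximal.coprime_of_ne (Ideal.IsPrime.isMaximal hP hP0) w.isMaximal
    (fun h => hPW w hw h.symm)

theorem main : S_SER2 := by
  intro K F _ _ _ _ _ _ T W hW hT
  classical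
  set N := finrank K F with hN
  have hN0 : 0 < N := finrank_pos
  have hNK : ((N : ℕ) : 𝓞 K) ≠ 0 := by exact_mod_cast hN0.ne'
  set I : Ideal (𝓞 K) := Ideal.span {((N : ℕ) : 𝓞 K)} with hIdef
  have hI : I ≠ ⊥ := by rw [hIdef, Ne, Ideal.span_singleton_eq_bot]; exact hNK
  choose c hc1 hc2 using fun v : HeightOneSpectrum (𝓞 K) =>
    exists_exp v.asIdeal I v.isPrime v.ne_bot hI
  set J : Ideal (𝓞 K) := ∏ v ∈ T, v.asIdeal ^ (c v + 1) with hJdef
  have hJ : J ≠ ⊥ := by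
    rw [hJdef]
    exact Finset.prod_ne_zero_iff.2 fun v _ => pow_ne_zero _ v.ne_bot
  have hW0 : (∏ w ∈ W, w.asIdeal) ≠ ⊥ := Finset.prod_ne_zero_iff.2 fun w _ => w.ne_bot
  have hvJ : ∀ v ∈ T, ∀ (P : Ideal (𝓞 F)), P.IsPrime → P ≠ ⊥ → P.LiesOver v.asIdeal → ∀ j : ℕ,
      P ^ j ∣ differentIdeal (𝓞 K) (𝓞 F) → P ^ (j + 1) ∣ J.map (algebraMap (𝓞 K) (𝓞 F)) := by
    intro v hv P hP hP0 hvP j hj
    have h1 := loc2 v.asIdeal v.isMaximal v.ne_bot (c v + 1) (by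
      intro h
      apply hc2 v
      rw [Ideal.dvd_iff_le, hIdef, Ideal.span_singleton_le_iff_mem]
      exact h) P hP hP0 hvP j hj
    refine h1.trans ?_
    rw [Ideal.dvd_iff_le]
    apply Ideal.map_mono
    rw [← Ideal.dvd_iff_le]
    exact Finset.dvd_prod_of_mem (fun v => v.asIdeal ^ (c v + 1)) hv
  have hdvd : differentIdeal (𝓞 K) (𝓞 F) * ∏ w ∈ W, w.asIdeal ∣
      J.map (algebraMap (𝓞 K) (𝓞 F)) := by
    apply dvd_of_pow (mul_ne_zero diff_ne_bot hW0) (map_ne J hJ)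
    intro P hP hP0 j hj
    rcases Nat.eq_zero_or_pos j with h0 | hj0
    · subst h0; simp
    by_cases hPW : ∃ w ∈ W, w.asIdeal = P
    · obtain ⟨w, hw, rfl⟩ := hPW
      obtain ⟨v, hv, hvP⟩ := hW w hw
      obtain ⟨i, rfl⟩ : ∃ i, j = i + 1 := ⟨j - 1, by omega⟩
      apply hvJ v hv w.asIdeal hP hP0 hvP i
      rw [← Finset.mul_prod_erase W _ hw, ← mul_assoc] at hj
      have h1 := cop w.asIdeal hP hP0 (W.erase w) (by
        intro u hu h
        exact (Finset.mem_erase.mp hu).1 (HeightOneSpectrum.ext h)) _ _ hj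
      rw [pow_succ] at h1
      exact (mul_dvd_mul_iff_right hP0).mp h1
    · push Not at hPW
      have h1 := cop P hP hP0 W hPW _ _ hj
      have hPD : P ∣ differentIdeal (𝓞 K) (𝓞 F) := (dvd_pow_self P hj0.ne').trans h1
      obtain ⟨v, hv, hvP⟩ := hT ⟨P, hP, hP0⟩ hPD
      exact (pow_dvd_pow P (Nat.le_succ j)).trans (hvJ v hv P hP hP0 hvP j h1)
  have h1 : (Ideal.absNorm (differentIdeal (𝓞 K) (𝓞 F) * ∏ w ∈ W, w.asIdeal) : ℕ) ∣
      Ideal.absNorm J ^ N := by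
    have h2 := Ideal.absNorm_dvd_absNorm_of_le (Ideal.dvd_iff_le.mp hdvd)
    rwa [Ideal.absNorm_algebraMap, ← IsFractionRing.finrank_eq (𝓞 K) K (𝓞 F) F] at h2
  have hJN : 0 < Ideal.absNorm J := Nat.pos_of_ne_zero (by rw [Ne, Ideal.absNorm_eq_zero_iff]; exact hJ)
  have h2 : (Ideal.absNorm (differentIdeal (𝓞 K) (𝓞 F) * ∏ w ∈ W, w.asIdeal) : ℕ) ≤
      Ideal.absNorm J ^ N :=
    Nat.le_of_dvd (pow_pos hJN _) h1
  have hD0 : 0 < Ideal.absNorm (differentIdeal (𝓞 K) (𝓞 F) * ∏ w ∈ W, w.asIdeal) :=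
    Nat.pos_of_ne_zero (by
      rw [Ne, Ideal.absNorm_eq_zero_iff]; exact mul_ne_zero diff_ne_bot hW0)
  have h3 : Real.log (Ideal.absNorm (differentIdeal (𝓞 K) (𝓞 F) * ∏ w ∈ W, w.asIdeal) : ℝ) ≤
      N * Real.log (Ideal.absNorm J : ℝ) := by
    rw [← Real.log_pow]
    apply Real.log_le_log (by exact_mod_cast hD0)
    exact_mod_cast h2
  have h3' : Real.log (Ideal.absNorm (differentIdeal (𝓞 K) (𝓞 F) * ∏ w ∈ W, w.asIdeal) : ℝ) =
      ∑ P ∈ W, Real.log (Ideal.absNorm P.asIdeal : ℝ) +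
      Real.log (Ideal.absNorm (differentIdeal (𝓞 K) (𝓞 F)) : ℝ) := by
    have hne : ∀ w ∈ W, (Ideal.absNorm w.asIdeal : ℝ) ≠ 0 := by
      intro w _
      have : Ideal.absNorm w.asIdeal ≠ 0 := by
        rw [Ne, Ideal.absNorm_eq_zero_iff]; exact w.ne_bot
      exact_mod_cast this
    have hne2 : (Ideal.absNorm (differentIdeal (𝓞 K) (𝓞 F)) : ℝ) ≠ 0 := by
      have : Ideal.absNorm (differentIdeal (𝓞 K) (𝓞 F)) ≠ 0 := by
        rw [Ne, Ideal.absNorm_eq_zero_iff]; exact diff_ne_bot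
      exact_mod_cast this
    rw [map_mul, map_prod, Nat.cast_mul, Nat.cast_prod,
      Real.log_mul hne2 (Finset.prod_ne_zero_iff.2 hne), Real.log_prod hne, add_comm]
  rw [← h3']
  refine h3.trans (mul_le_mul_of_nonneg_left ?_ (Nat.cast_nonneg _))
  -- the norm of `J`
  have h4 : Real.log (Ideal.absNorm J : ℝ) = ∑ v ∈ T, Real.log (Ideal.absNorm v.asIdeal : ℝ) +
      ∑ v ∈ T, (c v : ℝ) * Real.log (Ideal.absNorm v.asIdeal : ℝ) := by
    rw [hJdef, map_prod, Nat.cast_prod, Real.log_prod, ← Finset.sum_add_distrib]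
    · refine Finset.sum_congr rfl fun v _ => ?_
      rw [map_pow, Nat.cast_pow, Real.log_pow]
      push_cast
      ring
    · intro v _
      rw [map_pow]
      have : Ideal.absNorm v.asIdeal ≠ 0 := by
        rw [Ne, Ideal.absNorm_eq_zero_iff]; exact v.ne_bot
      exact_mod_cast pow_ne_zero _ this
  rw [h4]
  have h5 : (∏ v ∈ T, v.asIdeal ^ c v) ∣ I := by
    apply Finset.prod_dvd_of_coprime
    · intro v _ w _ hvw
      show IsCoprime (v.asIdeal ^ c v) (w.asIdeal ^ c w)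
      apply IsCoprime.pow
      rw [Ideal.isCoprime_iff_sup_eq]
      apply Ideal.IsMaximal.coprime_of_ne v.isMaximal w.isMaximal
      intro h
      exact hvw (HeightOneSpectrum.ext h)
    · intro v _
      exact hc1 v
  have h6 : Ideal.absNorm I = N ^ finrank ℚ K := by
    rw [hIdef, Ideal.absNorm_span_singleton]
    have h4 : ((N : ℕ) : 𝓞 K) = algebraMap ℤ (𝓞 K) (N : ℤ) := by simp
    rw [h4, Algebra.norm_algebraMap, NumberField.RingOfIntegers.rank]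
    simp [Int.natAbs_pow]
  have h7 : Ideal.absNorm (∏ v ∈ T, v.asIdeal ^ c v) ≤ N ^ finrank ℚ K := by
    rw [← h6]
    apply Nat.le_of_dvd
    · rw [h6]; exact pow_pos hN0 _
    · exact Ideal.absNorm_dvd_absNorm_of_le (Ideal.dvd_iff_le.mp h5)
  have h8 : ∑ v ∈ T, (c v : ℝ) * Real.log (Ideal.absNorm v.asIdeal : ℝ) =
      Real.log (Ideal.absNorm (∏ v ∈ T, v.asIdeal ^ c v) : ℝ) := by
    rw [map_prod, Nat.cast_prod, Real.log_prod]
    · refine Finset.sum_congr rfl fun v _ => ?_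
      rw [map_pow, Nat.cast_pow, Real.log_pow]
    · intro v _
      rw [map_pow]
      have : Ideal.absNorm v.asIdeal ≠ 0 := by
        rw [Ne, Ideal.absNorm_eq_zero_iff]; exact v.ne_bot
      exact_mod_cast pow_ne_zero _ this
  have h9 : Real.log (Ideal.absNorm (∏ v ∈ T, v.asIdeal ^ c v) : ℝ) ≤
      finrank ℚ K * Real.log N := by
    rw [← Real.log_pow]
    apply Real.log_le_log
    · have h10 : Ideal.absNorm (∏ v ∈ T, v.asIdeal ^ c v) ≠ 0 := by
        rw [Ne, Ideal.absNorm_eq_zero_iff]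
        exact Finset.prod_ne_zero_iff.2 fun v _ => pow_ne_zero _ v.ne_bot
      exact_mod_cast Nat.pos_of_ne_zero h10
    · exact_mod_cast h7
  rw [h8]
  linarith

end Pool.Agent.J4.H2.VT.SER2

namespace Pool.Agent.J4.H2.VT

theorem t_SER2 : S_SER2 := SER2.main

end Pool.Agent.J4.H2.VT
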