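import Pool.Agent.J4.H2.VT.Defs4

/-!
# The primes at which a point meets a divisor given by several forms, in a tower
-/

set_option autoImplicit false

open MvPolynomial NumberField IsDedekindDomain Module

namespace Pool.Agent.J4.H2.VT

open Pool.Agent.J4.H5.VJ

theorem t_TRUI : S_TRUI := by
  intro k L L' _ _ _ _ _ _ _ _ _ _ M u S e m G x y hy w hw
  obtain ⟨hwS, j, hj⟩ := hw
  have hlo : w.asIdeal.LiesOver (w.under (𝓞 L)).asIdeal := ⟨rfl⟩
  refine ⟨w.under (𝓞 L), ⟨?_, j, fun i => ?_⟩, hlo⟩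
  · rintro ⟨v, hv, hlv⟩
    refine hwS ⟨v, hv, ?_⟩
    exact Ideal.LiesOver.trans w.asIdeal (w.under (𝓞 L)).asIdeal v.asIdeal
  · have h1 : aeval y (expand m (G i)) = algebraMap L L' (aeval x (G i)) := by
      rw [aeval_expand, show (y ^ m : Fin M → L') = fun i => algebraMap L L' (x i) from
        funext hy]
      exact aeval_algebraMap_apply L' x (G i)
    have hji := hj i
    rw [h1, pow_mul, ← map_pow, hy j, ← HeightOneSpectrum.valuation_liesOver L' (w.under (𝓞 L)) w,
      ← HeightOneSpectrum.valuation_liesOver L' (w.under (𝓞 L)) w, ← pow_mul, mul_comm _ e,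
      pow_mul] at hji
    exact lt_of_pow_lt_pow_left₀ _ zero_le hji

end Pool.Agent.J4.H2.VT
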