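import Pool.Agent.J4.H2.VT.Defs
import Pool.Agent.J4.H5.VJ.T_CNT

/-!
# Project VT (helper2), piece TST (helper45)
-/

set_option autoImplicit false

open MvPolynomial NumberField IsDedekindDomain Module

namespace Pool.Agent.J4.H2.VT

open Pool.Agent.J4.H5.VJ

namespace TST

/-- a form with integral coefficients -/
theorem form_le {k L : Type} [Field k] [Field L] [Algebra k L] {Γ : Type}
    [LinearOrderedCommGroupWithZero Γ] (v : Valuation L Γ) {M e : ℕ}
    (F : MvPolynomial (Fin M) k) (hF : F.IsHomogeneous e)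
    (hc : ∀ m ∈ F.support, v (algebraMap k L (coeff m F)) ≤ 1) (z : Fin M → L) (B : Γ)
    (hB : ∀ i, v (z i) ≤ B) : v (aeval z F) ≤ B ^ e := by
  rw [aeval_def, eval₂_eq']
  refine Valuation.map_sum_le v ?_
  intro m hm
  rw [map_mul, map_prod]
  have h1 : ∏ i, v (z i ^ m i) ≤ B ^ e := by
    calc ∏ i, v (z i ^ m i) ≤ ∏ i, B ^ m i := by
          refine Finset.prod_le_prod' ?_
          intro i _
          rw [map_pow]
          exact pow_le_pow_left' (hB i) _
      _ = B ^ e := by
          rw [Finset.prod_pow_eq_pow_sum]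
          congr 1
          have := hF (mem_support_iff.mp hm)
          rw [← this, Finsupp.weight_apply, Finsupp.sum_fintype]
          · simp
          · intro i
            simp
  calc _ ≤ 1 * B ^ e := mul_le_mul' (hc m hm) h1
    _ = B ^ e := one_mul _

end TST

open TST

theorem t_TST : S_TST := by
  classical
  intro k _ _ n e F hF
  refine ⟨F.support.attach.biUnion (fun m =>
    (cnt_finite (coeff m.1 F) (mem_support_iff.mp m.2)).toFinset), ?_⟩
  intro L _ _ _ S x hx w hwS hwS' hw
  have hint : ∀ m ∈ F.support, w.valuation L (algebraMap k L (coeff m F)) ≤ 1 := by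
    intro m hm
    set v : HeightOneSpectrum (𝓞 k) := HeightOneSpectrum.under (𝓞 k) w with hv
    have hlies : w.asIdeal.LiesOver v.asIdeal := ⟨rfl⟩
    have h1 : v.valuation k (coeff m F) = 1 := by
      by_contra hne
      refine hwS' ⟨v, ?_, hlies⟩
      rw [Finset.mem_biUnion]
      exact ⟨⟨m, hm⟩, Finset.mem_attach _ _, by simpa using hne⟩
    rw [← HeightOneSpectrum.valuation_liesOver L v w (coeff m F), h1, one_pow]
  obtain ⟨j₀, hj₀⟩ := Finite.exists_max (fun j => w.valuation L (pt x j))
  set B := w.valuation L (pt x j₀) with hBdef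
  have hB1 : 1 ≤ B := by
    have := hj₀ 0
    simpa [pt] using this
  have hFle : w.valuation L (aeval (pt x) F) ≤ B ^ e := form_le _ F hF hint _ B hj₀
  have hB0 : 0 < B := zero_lt_one.trans_le hB1
  -- the point is not on the divisor
  have h1 : B ^ (e + (n + 1)) ≤ w.valuation L (aeval (pt x) F) * ∏ i, w.valuation L (pt x i) := by
    by_contra hlt
    push Not at hlt
    refine hw ⟨hwS, j₀, ?_⟩
    rw [map_mul, map_mul, map_prod, map_prod]
    simpa only [aeval_X] using hlt
  have h2 : ∏ i, w.valuation L (pt x i) ≤ B ^ n := by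
    rw [Fin.prod_univ_succ]
    have h3 : w.valuation L (pt x 0) = 1 := by simp [pt]
    rw [h3, one_mul]
    calc ∏ i : Fin n, w.valuation L (pt x i.succ) ≤ ∏ _i : Fin n, B :=
          Finset.prod_le_prod' fun i _ => hj₀ _
      _ = B ^ n := by rw [Finset.prod_const, Finset.card_univ, Fintype.card_fin]
  have h3 : B ^ (e + (n + 1)) ≤ B ^ (e + n) := by
    rw [pow_add B e n]
    exact h1.trans (mul_le_mul' hFle h2)
  have hBone : B = 1 := by
    refine le_antisymm ?_ hB1
    by_contra hlt
    push Not at hlt
    exact absurd h3 (not_le.mpr (pow_lt_pow_right₀ hlt (by omega)))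
  rw [hBone] at h1 hFle hj₀
  simp only [one_pow] at h1 hFle
  have h4 : ∀ i, w.valuation L (pt x i) = 1 := by
    intro i
    refine le_antisymm (hj₀ i) ?_
    calc (1 : _) ≤ w.valuation L (aeval (pt x) F) * ∏ i, w.valuation L (pt x i) := h1
      _ ≤ 1 * w.valuation L (pt x i) := by
        refine mul_le_mul' hFle ?_
        rw [← Finset.mul_prod_erase Finset.univ _ (Finset.mem_univ i)]
        calc w.valuation L (pt x i) * ∏ j ∈ Finset.univ.erase i, w.valuation L (pt x j)
            ≤ w.valuation L (pt x i) * 1 := by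
              refine mul_le_mul' le_rfl ?_
              exact Finset.prod_le_one' fun j _ => hj₀ j
          _ = _ := mul_one _
      _ = _ := one_mul _
  have h5 : w.valuation L (aeval (pt x) F) = 1 := by
    refine le_antisymm hFle ?_
    have : ∏ i, w.valuation L (pt x i) = 1 := Finset.prod_eq_one fun i _ => h4 i
    rw [this, mul_one] at h1
    exact h1
  refine ⟨?_, fun i => ?_⟩
  · rintro ⟨-, j, hj⟩
    rw [h5, h4 j, one_pow] at hj
    exact lt_irrefl _ hj
  · simpa [pt] using h4 i.succ

end Pool.Agent.J4.H2.VT
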